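import Pool.Agent.U615.EP.I
import Pool.Agent.R311.BS.WF

set_option autoImplicit false

/-! Averaging over the windows. -/

namespace Pool.Agent.U615.EP

open Finset MeasureTheory Filter Topology
open Pool.Agent.H306R2 Pool.Agent.R311.BS

noncomputable section

/-- the indices of the points of the progression in `[A, B]` -/
def ix (α t₀ A B : ℝ) : Finset ℤ := Icc ⌈(A - t₀) / α⌉ ⌊(B - t₀) / α⌋

lemma mem_ix {α t₀ A B : ℝ} (hα : 0 < α) (n : ℤ) : n ∈ ix α t₀ A B ↔ A ≤ t₀ + α * n ∧ t₀ + α * n ≤ B := by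
  unfold ix
  rw [mem_Icc, Int.ceil_le, Int.le_floor, div_le_iff₀ hα, le_div_iff₀ hα]
  constructor
  · rintro ⟨h1, h2⟩
    constructor <;> linarith
  · rintro ⟨h1, h2⟩
    constructor <;> linarith

lemma gw_int_le (H : ℝ) (hH : 0 < H) (t a b : ℝ) (hab : a ≤ b) : ∫ τ in a..b, gw τ H t ≤ 1 := by
  have e3 : ∀ τ, gw τ H t = gw t H τ := fun τ => gw_symm τ H t
  simp only [e3]
  rw [intervalIntegral.integral_of_le hab, ← gw_integral t H hH]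
  exact setIntegral_le_integral (gw_integrable t H hH) (Eventually.of_forall fun τ => gw_nonneg t H τ hH)

lemma gw_cont' (H t : ℝ) : Continuous fun τ => gw τ H t :=
  (gw_uncurry H).comp (by fun_prop : Continuous (fun τ : ℝ => (τ, t)))

theorem prog_short (q : ℕ) (hq : 2 ≤ q) (α : ℝ) (hα : 0 < α) :
    ∃ c : ℝ, 0 < c ∧ ∀ᶠ T : ℝ in atTop, ∀ H : ℝ, T ^ (1 - 1 / 256 : ℝ) ≤ H → H ≤ T →
      ∀ t₀ : ℝ, c * H * Real.log T ^ (((q:ℝ) / 2) ^ 2) ≤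
        ∑ n ∈ ix α t₀ T (T + H), ‖zl (t₀ + α * n)‖ ^ q := by
  obtain ⟨c, hc, h⟩ := window_bound q hq α hα
  refine ⟨c / (2 * α), by positivity, ?_⟩
  filter_upwards [h, ev_rpow_ge 4 (1 / 256) (by norm_num), eventually_ge_atTop 1] with T hT h4 hT1 H hH1 hH2 t₀
  have hT0 : 0 < T := by linarith
  have hlog : 0 ≤ Real.log T := Real.log_nonneg hT1
  obtain ⟨R, hR⟩ : ∃ R : ℝ, R = T ^ (1 - 1 / 128 : ℝ) := ⟨_, rfl⟩
  have hR0 : 0 < R := by rw [hR]; positivity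
  have hRH : 4 * R ≤ H := by
    refine le_trans ?_ hH1
    calc 4 * R ≤ T ^ (1 / 256 : ℝ) * T ^ (1 - 1 / 128 : ℝ) := by rw [hR]; gcongr
      _ = T ^ (1 - 1 / 256 : ℝ) := by
          rw [← Real.rpow_add hT0]
          congr 1
          norm_num
  have hH0 : 0 < H := by linarith
  rw [← hR] at hT
  obtain ⟨h₀, hh₀⟩ : ∃ h₀ : ℝ, h₀ = T ^ (1 - 1 / 64 : ℝ) := ⟨_, rfl⟩
  have hh₀pos : 0 < h₀ := by rw [hh₀]; positivity
  rw [← hh₀] at hT
  obtain ⟨L, hL⟩ : ∃ L : ℝ, L = c * Real.log T ^ (((q:ℝ) / 2) ^ 2) := ⟨_, rfl⟩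
  have hL0 : 0 ≤ L := by rw [hL]; positivity
  have hpt : ∀ τ ∈ Set.Icc (T + R) (T + H - R), L ≤
      ∑ n ∈ ix α t₀ T (T + H), α * ‖zl (t₀ + α * n)‖ ^ q * gw τ h₀ (t₀ + α * n) := by
    intro τ hτ
    have h1 := hT τ (by linarith [hτ.1]) (by linarith [hτ.2]) t₀
    rw [← hL] at h1
    refine h1.trans ?_
    unfold DR
    rw [tsum_eq_sum (s := ix α t₀ T (T + H)), mul_sum]
    · refine sum_le_sum fun n _ => ?_
      have hg := gw_nonneg τ h₀ (t₀ + α * n) hh₀pos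
      have h2 : (if |t₀ + α * n - τ| < R then ‖zl (t₀ + α * n)‖ ^ q else 0) ≤ ‖zl (t₀ + α * n)‖ ^ q := by
        split_ifs
        · exact le_rfl
        · positivity
      rw [mul_assoc α]
      gcongr
    · intro n hn
      rw [mem_ix hα, not_and_or, not_le, not_le] at hn
      have h2 : ¬ |t₀ + α * n - τ| < R := by
        rw [not_lt]
        rcases hn with hn | hn
        · have h3 : R ≤ -(t₀ + α * n - τ) := by linarith [hτ.1]
          exact h3.trans (neg_le_abs _)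
        · have h3 : R ≤ t₀ + α * n - τ := by linarith [hτ.2]
          exact h3.trans (le_abs_self _)
      simp only [if_neg h2, zero_mul]
  have hab : T + R ≤ T + H - R := by linarith
  have hint : ∀ n ∈ ix α t₀ T (T + H), IntervalIntegrable
      (fun τ => α * ‖zl (t₀ + α * n)‖ ^ q * gw τ h₀ (t₀ + α * n)) volume (T + R) (T + H - R) := fun n _ =>
    ((gw_cont' h₀ (t₀ + α * n)).const_mul _).intervalIntegrable _ _
  have h1 : (T + H - R - (T + R)) * L ≤ ∫ τ in (T + R)..(T + H - R),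
      ∑ n ∈ ix α t₀ T (T + H), α * ‖zl (t₀ + α * n)‖ ^ q * gw τ h₀ (t₀ + α * n) := by
    have h2 : ∫ _τ in (T + R)..(T + H - R), L = (T + H - R - (T + R)) * L := by
      rw [intervalIntegral.integral_const, smul_eq_mul]
    rw [← h2]
    have hc2 : Continuous fun τ => ∑ n ∈ ix α t₀ T (T + H), α * ‖zl (t₀ + α * n)‖ ^ q * gw τ h₀ (t₀ + α * n) :=
      continuous_finset_sum _ fun n _ => (gw_cont' h₀ (t₀ + α * n)).const_mul _
    exact intervalIntegral.integral_mono_on hab (by simp) (hc2.intervalIntegrable _ _) hpt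
  rw [intervalIntegral.integral_finsetSum hint] at h1
  have h2 : ∑ n ∈ ix α t₀ T (T + H), ∫ τ in (T + R)..(T + H - R), α * ‖zl (t₀ + α * n)‖ ^ q * gw τ h₀ (t₀ + α * n) ≤
      ∑ n ∈ ix α t₀ T (T + H), α * ‖zl (t₀ + α * n)‖ ^ q := by
    refine sum_le_sum fun n _ => ?_
    rw [intervalIntegral.integral_const_mul]
    have h3 := gw_int_le h₀ hh₀pos (t₀ + α * n) _ _ hab
    have h4 : 0 ≤ α * ‖zl (t₀ + α * n)‖ ^ q := by positivity
    calc _ ≤ α * ‖zl (t₀ + α * n)‖ ^ q * 1 := by gcongr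
      _ = _ := mul_one _
  rw [← mul_sum] at h2
  have h3 : H / 2 * L ≤ α * ∑ n ∈ ix α t₀ T (T + H), ‖zl (t₀ + α * n)‖ ^ q := by
    refine le_trans ?_ (h1.trans h2)
    refine mul_le_mul_of_nonneg_right ?_ hL0
    linarith
  have h5 : c / (2 * α) * H * Real.log T ^ (((q:ℝ) / 2) ^ 2) = (H / 2 * L) / α := by
    rw [hL]
    field_simp
  rw [h5, div_le_iff₀ hα]
  linarith

lemma ix_mono {α t₀ A B A' B' : ℝ} (hα : 0 < α) (hA : A' ≤ A) (hB : B ≤ B') : ix α t₀ A B ⊆ ix α t₀ A' B' := by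
  intro n hn
  rw [mem_ix hα] at hn ⊢
  constructor <;> linarith [hn.1, hn.2]

/-- all intervals `[T, T + H]` with `T ^ (255/256) ≤ H` -/
theorem prog_all (q : ℕ) (hq : 2 ≤ q) (α : ℝ) (hα : 0 < α) :
    ∃ c : ℝ, 0 < c ∧ ∃ T₀ : ℝ, 1 ≤ T₀ ∧ ∀ T : ℝ, T₀ ≤ T → ∀ H : ℝ, T ^ (1 - 1 / 256 : ℝ) ≤ H →
      ∀ t₀ : ℝ, c * H * Real.log (T + H) ^ ((q:ℝ) ^ 2 / 4) ≤
        ∑ n ∈ ix α t₀ T (T + H), ‖zl (t₀ + α * n)‖ ^ q := by
  obtain ⟨c, hc, h⟩ := prog_short q hq α hα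
  obtain ⟨T₁, hT₁⟩ := (h.and (eventually_ge_atTop 4)).exists_forall_of_atTop
  have e0 : ((q:ℝ) / 2) ^ 2 = (q:ℝ) ^ 2 / 4 := by ring
  rw [e0] at hT₁
  refine ⟨c / 2 * (1 / 2) ^ ((q:ℝ) ^ 2 / 4), by positivity, max T₁ 4, by
    have := le_max_right T₁ 4
    linarith, fun T hT H hH t₀ => ?_⟩
  have hT1 : T₁ ≤ T := (le_max_left _ _).trans hT
  have hT4 : 4 ≤ T := (le_max_right _ _).trans hT
  have hH0 : 0 < H := lt_of_lt_of_le (Real.rpow_pos_of_pos (by linarith) _) hH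
  have hqq : 0 ≤ (q:ℝ) ^ 2 / 4 := by positivity
  by_cases hHT : H ≤ T
  · have h1 := (hT₁ T hT1).1 H hH hHT t₀
    refine le_trans ?_ h1
    have h2 : Real.log (T + H) ≤ 2 * Real.log T := by
      have h3 : T + H ≤ T ^ 2 := by nlinarith
      calc Real.log (T + H) ≤ Real.log (T ^ 2) := Real.log_le_log (by linarith) h3
        _ = 2 * Real.log T := by rw [Real.log_pow]; push_cast; ring
    have h4 : Real.log (T + H) ^ ((q:ℝ) ^ 2 / 4) ≤ (2 * Real.log T) ^ ((q:ℝ) ^ 2 / 4) :=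
      Real.rpow_le_rpow (Real.log_nonneg (by linarith)) h2 hqq
    rw [Real.mul_rpow (by norm_num) (Real.log_nonneg (by linarith))] at h4
    have h5 : (1 / 2 : ℝ) ^ ((q:ℝ) ^ 2 / 4) * (2:ℝ) ^ ((q:ℝ) ^ 2 / 4) = 1 := by
      rw [← Real.mul_rpow (by norm_num) (by norm_num)]
      norm_num
    have h6 : 0 ≤ Real.log T ^ ((q:ℝ) ^ 2 / 4) := Real.rpow_nonneg (Real.log_nonneg (by linarith)) _
    calc c / 2 * (1 / 2) ^ ((q:ℝ) ^ 2 / 4) * H * Real.log (T + H) ^ ((q:ℝ) ^ 2 / 4) ≤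
        c / 2 * (1 / 2) ^ ((q:ℝ) ^ 2 / 4) * H * (2 ^ ((q:ℝ) ^ 2 / 4) * Real.log T ^ ((q:ℝ) ^ 2 / 4)) := by gcongr
      _ = c / 2 * H * Real.log T ^ ((q:ℝ) ^ 2 / 4) * ((1 / 2) ^ ((q:ℝ) ^ 2 / 4) * 2 ^ ((q:ℝ) ^ 2 / 4)) := by ring
      _ = c / 2 * H * Real.log T ^ ((q:ℝ) ^ 2 / 4) := by rw [h5, mul_one]
      _ ≤ c * H * Real.log T ^ ((q:ℝ) ^ 2 / 4) := by
          have : 0 ≤ H * Real.log T ^ ((q:ℝ) ^ 2 / 4) := mul_nonneg hH0.le h6
          nlinarith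
  · rw [not_le] at hHT
    obtain ⟨S, hS⟩ : ∃ S : ℝ, S = (T + H) / 2 := ⟨_, rfl⟩
    have hST : T ≤ S := by rw [hS]; linarith
    have hS1 : 1 ≤ S := by linarith
    have h1 := (hT₁ S (hT1.trans hST)).1 S (by
      calc S ^ (1 - 1 / 256 : ℝ) ≤ S ^ (1:ℝ) := Real.rpow_le_rpow_of_exponent_le hS1 (by norm_num)
        _ = S := Real.rpow_one S) le_rfl t₀
    have h2 : ∑ n ∈ ix α t₀ S (S + S), ‖zl (t₀ + α * n)‖ ^ q ≤ ∑ n ∈ ix α t₀ T (T + H), ‖zl (t₀ + α * n)‖ ^ q := by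
      refine sum_le_sum_of_subset_of_nonneg (ix_mono hα hST ?_) fun n _ _ => by positivity
      rw [hS]
      linarith
    refine le_trans ?_ (h1.trans h2)
    have h3 : Real.log (T + H) ≤ 2 * Real.log S := by
      have h4 : T + H ≤ S ^ 2 := by
        have : T + H = 2 * S := by rw [hS]; ring
        nlinarith
      calc Real.log (T + H) ≤ Real.log (S ^ 2) := Real.log_le_log (by linarith) h4
        _ = 2 * Real.log S := by rw [Real.log_pow]; push_cast; ring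
    have h4 : Real.log (T + H) ^ ((q:ℝ) ^ 2 / 4) ≤ (2 * Real.log S) ^ ((q:ℝ) ^ 2 / 4) :=
      Real.rpow_le_rpow (Real.log_nonneg (by linarith)) h3 hqq
    rw [Real.mul_rpow (by norm_num) (Real.log_nonneg (by linarith))] at h4
    have h5 : (1 / 2 : ℝ) ^ ((q:ℝ) ^ 2 / 4) * (2:ℝ) ^ ((q:ℝ) ^ 2 / 4) = 1 := by
      rw [← Real.mul_rpow (by norm_num) (by norm_num)]
      norm_num
    have h6 : 0 ≤ Real.log S ^ ((q:ℝ) ^ 2 / 4) := Real.rpow_nonneg (Real.log_nonneg (by linarith)) _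
    calc c / 2 * (1 / 2) ^ ((q:ℝ) ^ 2 / 4) * H * Real.log (T + H) ^ ((q:ℝ) ^ 2 / 4) ≤
        c / 2 * (1 / 2) ^ ((q:ℝ) ^ 2 / 4) * H * (2 ^ ((q:ℝ) ^ 2 / 4) * Real.log S ^ ((q:ℝ) ^ 2 / 4)) := by gcongr
      _ = c / 2 * H * Real.log S ^ ((q:ℝ) ^ 2 / 4) * ((1 / 2) ^ ((q:ℝ) ^ 2 / 4) * 2 ^ ((q:ℝ) ^ 2 / 4)) := by ring
      _ = c * (H / 2) * Real.log S ^ ((q:ℝ) ^ 2 / 4) := by rw [h5, mul_one]; ring
      _ ≤ c * S * Real.log S ^ ((q:ℝ) ^ 2 / 4) := by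
          have : H / 2 ≤ S := by rw [hS]; linarith
          gcongr

/-- the first `N` points of the progression with the start `γ` -/
theorem prog_N (q : ℕ) (hq : 2 ≤ q) (α : ℝ) (hα : 0 < α) :
    ∃ c : ℝ, 0 < c ∧ ∀ᶠ N : ℕ in atTop, ∀ γ : ℝ, -(α * N / 8) ≤ γ → γ ≤ (N:ℝ) ^ (1 + 1 / 512 : ℝ) →
      c * N * Real.log N ^ ((q:ℝ) ^ 2 / 4) ≤ ∑ n ∈ range N, ‖zl (γ + α * n)‖ ^ q := by
  obtain ⟨c, hc, T₀, hT₀, h⟩ := prog_all q hq α hα
  have hcN : Tendsto (fun N : ℕ => (N:ℝ)) atTop atTop := tendsto_natCast_atTop_atTop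
  refine ⟨c * (α / 4) * (1 / 2) ^ ((q:ℝ) ^ 2 / 4), by positivity, ?_⟩
  have hqq : 0 ≤ (q:ℝ) ^ 2 / 4 := by positivity
  have ev1 := hcN.eventually (eventually_ge_atTop (8 * T₀ / α))
  have ev2 := hcN.eventually (ev_rpow_ge (4 * (1 + α) / α) (1 / 1024) (by norm_num))
  have ev3 := hcN.eventually (ev_rpow_ge (8 / α) (1 / 2) (by norm_num))
  filter_upwards [ev1, ev2, ev3, eventually_ge_atTop 1] with N h1 h2 h3 hN γ hγ1 hγ2
  have hN1 : (1:ℝ) ≤ N := by exact_mod_cast hN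
  have hN0 : (0:ℝ) < N := by linarith
  obtain ⟨T, hT⟩ : ∃ T : ℝ, T = γ + α * N / 4 := ⟨_, rfl⟩
  have hT8 : α * N / 8 ≤ T := by rw [hT]; linarith
  have hTT : T₀ ≤ T := by
    rw [div_le_iff₀ hα] at h1
    linarith
  have hT0 : 0 < T := by linarith
  have hTle : T ≤ (1 + α) * (N:ℝ) ^ (1 + 1 / 512 : ℝ) := by
    have e1 : (N:ℝ) ≤ (N:ℝ) ^ (1 + 1 / 512 : ℝ) := by
      calc (N:ℝ) = (N:ℝ) ^ (1:ℝ) := (Real.rpow_one _).symm
        _ ≤ _ := Real.rpow_le_rpow_of_exponent_le hN1 (by norm_num)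
    have e2 : α * N / 4 ≤ α * (N:ℝ) ^ (1 + 1 / 512 : ℝ) := by nlinarith
    rw [hT]
    linarith
  have hH : T ^ (1 - 1 / 256 : ℝ) ≤ α * N / 4 := by
    calc T ^ (1 - 1 / 256 : ℝ) ≤ ((1 + α) * (N:ℝ) ^ (1 + 1 / 512 : ℝ)) ^ (1 - 1 / 256 : ℝ) :=
          Real.rpow_le_rpow hT0.le hTle (by norm_num)
      _ = (1 + α) ^ (1 - 1 / 256 : ℝ) * (N:ℝ) ^ ((1 + 1 / 512) * (1 - 1 / 256) : ℝ) := by
          rw [Real.mul_rpow (by positivity) (by positivity), ← Real.rpow_mul hN0.le]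
      _ ≤ (1 + α) * (N:ℝ) ^ (1 - 1 / 1024 : ℝ) := by
          have e3 : (1 + α) ^ (1 - 1 / 256 : ℝ) ≤ 1 + α := by
            calc (1 + α) ^ (1 - 1 / 256 : ℝ) ≤ (1 + α) ^ (1:ℝ) :=
                  Real.rpow_le_rpow_of_exponent_le (by linarith) (by norm_num)
              _ = 1 + α := Real.rpow_one _
          have e4 : (N:ℝ) ^ ((1 + 1 / 512) * (1 - 1 / 256) : ℝ) ≤ (N:ℝ) ^ (1 - 1 / 1024 : ℝ) :=
            Real.rpow_le_rpow_of_exponent_le hN1 (by norm_num)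
          gcongr
      _ = α / 4 * (4 * (1 + α) / α * (N:ℝ) ^ (1 - 1 / 1024 : ℝ)) := by field_simp
      _ ≤ α / 4 * ((N:ℝ) ^ (1 / 1024 : ℝ) * (N:ℝ) ^ (1 - 1 / 1024 : ℝ)) := by gcongr
      _ = α / 4 * (N:ℝ) ^ (1:ℝ) := by
          rw [← Real.rpow_add hN0]
          norm_num
      _ = _ := by rw [Real.rpow_one]; ring
  have h4 := h T hTT (α * N / 4) hH γ
  have h5 : ∑ n ∈ ix α γ T (T + α * N / 4), ‖zl (γ + α * n)‖ ^ q ≤ ∑ n ∈ range N, ‖zl (γ + α * n)‖ ^ q := by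
    have hinj : Set.InjOn (fun n : ℕ => (n:ℤ)) (range N : Finset ℕ) := fun a _ b _ hab => Int.ofNat_inj.mp hab
    have e1 : ∑ n ∈ range N, ‖zl (γ + α * n)‖ ^ q =
        ∑ n ∈ (range N).image (fun n : ℕ => (n:ℤ)), ‖zl (γ + α * (n:ℝ))‖ ^ q := by
      rw [sum_image hinj]
      refine sum_congr rfl fun n _ => ?_
      push_cast
      rfl
    rw [e1]
    refine sum_le_sum_of_subset_of_nonneg (fun n hn => ?_) fun n _ _ => by positivity
    rw [mem_ix hα] at hn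
    rw [mem_image]
    have a1 : (0:ℝ) ≤ n := by
      have : α * 0 ≤ α * (n:ℝ) := by
        have := hn.1
        rw [hT] at this
        have : 0 ≤ α * N / 4 := by positivity
        linarith
      exact le_of_mul_le_mul_left this hα
    have a2 : (n:ℝ) < N := by
      have : α * (n:ℝ) < α * N := by
        have := hn.2
        rw [hT] at this
        have : 0 < α * N := by positivity
        linarith
      exact lt_of_mul_lt_mul_left this hα.le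
    have a3 : 0 ≤ n := by exact_mod_cast a1
    have a4 : n < N := by exact_mod_cast a2
    refine ⟨n.toNat, ?_, ?_⟩
    · rw [mem_range]
      omega
    · omega
  refine le_trans ?_ (h4.trans h5)
  have h6 : Real.log N ≤ 2 * Real.log (T + α * N / 4) := by
    have e1 : (N:ℝ) ^ (1 / 2 : ℝ) ≤ T + α * N / 4 := by
      have e2 : (N:ℝ) ^ (1 / 2 : ℝ) * (N:ℝ) ^ (1 / 2 : ℝ) = N := by
        rw [← Real.rpow_add hN0]
        norm_num
      have e3 : 8 / α * (N:ℝ) ^ (1 / 2 : ℝ) ≤ N := by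
        calc 8 / α * (N:ℝ) ^ (1 / 2 : ℝ) ≤ (N:ℝ) ^ (1 / 2 : ℝ) * (N:ℝ) ^ (1 / 2 : ℝ) := by gcongr
          _ = N := e2
      have e4 : (N:ℝ) ^ (1 / 2 : ℝ) ≤ α * N / 8 := by
        calc (N:ℝ) ^ (1 / 2 : ℝ) = α / 8 * (8 / α * (N:ℝ) ^ (1 / 2 : ℝ)) := by field_simp
          _ ≤ α / 8 * N := by gcongr
          _ = _ := by ring
      have : 0 ≤ α * N / 4 := by positivity
      linarith
    calc Real.log N = 2 * Real.log ((N:ℝ) ^ (1 / 2 : ℝ)) := by rw [Real.log_rpow hN0]; ring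
      _ ≤ 2 * Real.log (T + α * N / 4) := by
          have := Real.log_le_log (by positivity) e1
          linarith
  have hlogN : 0 ≤ Real.log N := Real.log_nonneg hN1
  have h7 : Real.log N ^ ((q:ℝ) ^ 2 / 4) ≤ (2 * Real.log (T + α * N / 4)) ^ ((q:ℝ) ^ 2 / 4) :=
    Real.rpow_le_rpow hlogN h6 hqq
  have hlog2 : 0 ≤ Real.log (T + α * N / 4) := by linarith
  rw [Real.mul_rpow (by norm_num) hlog2] at h7
  have h8 : (1 / 2 : ℝ) ^ ((q:ℝ) ^ 2 / 4) * (2:ℝ) ^ ((q:ℝ) ^ 2 / 4) = 1 := by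
    rw [← Real.mul_rpow (by norm_num) (by norm_num)]
    norm_num
  calc c * (α / 4) * (1 / 2) ^ ((q:ℝ) ^ 2 / 4) * N * Real.log N ^ ((q:ℝ) ^ 2 / 4) ≤
      c * (α / 4) * (1 / 2) ^ ((q:ℝ) ^ 2 / 4) * N * (2 ^ ((q:ℝ) ^ 2 / 4) * Real.log (T + α * N / 4) ^ ((q:ℝ) ^ 2 / 4)) := by
        gcongr
    _ = c * (α * N / 4) * Real.log (T + α * N / 4) ^ ((q:ℝ) ^ 2 / 4) *
      ((1 / 2) ^ ((q:ℝ) ^ 2 / 4) * 2 ^ ((q:ℝ) ^ 2 / 4)) := by ring
    _ = _ := by rw [h8, mul_one]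

end

end Pool.Agent.U615.EP
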