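import Pool.Agent.U615.EP.Q
import Pool.Agent.R311.BS.WC

set_option autoImplicit false

/-! Mean values of Dirichlet polynomials over an arithmetic progression. -/

namespace Pool.Agent.U615.EP

open Finset MeasureTheory Filter Topology
open Pool.Agent.H306R2 Pool.Agent.R311.BS

noncomputable section

/-- the weighted sum over the progression `t₀ + α n` -/
def DS (α t₀ τ H : ℝ) (F : ℝ → ℂ) : ℂ := (α : ℂ) * ∑' n : ℤ, F (t₀ + α * n) * (gw τ H (t₀ + α * n) : ℂ)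

/-- real version -/
def DR (α t₀ τ H : ℝ) (F : ℝ → ℝ) : ℝ := α * ∑' n : ℤ, F (t₀ + α * n) * gw τ H (t₀ + α * n)

lemma DS_summable (α t₀ τ H : ℝ) (hα : 0 < α) (hH : 0 < H) (F : ℝ → ℂ) (K : ℝ) (hF : ∀ t, ‖F t‖ ≤ K) :
    Summable fun n : ℤ => F (t₀ + α * n) * (gw τ H (t₀ + α * n) : ℂ) := by
  have hs := (gw_summable α τ H t₀ hα hH).mul_left K
  refine Summable.of_norm_bounded hs fun n => ?_
  rw [norm_mul, Complex.norm_real, Real.norm_of_nonneg (gw_nonneg _ _ _ hH)]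
  exact mul_le_mul_of_nonneg_right (hF _) (gw_nonneg _ _ _ hH)

lemma DR_summable (α t₀ τ H : ℝ) (hα : 0 < α) (hH : 0 < H) (F : ℝ → ℝ) (K : ℝ) (hF : ∀ t, |F t| ≤ K) :
    Summable fun n : ℤ => F (t₀ + α * n) * gw τ H (t₀ + α * n) := by
  have hs := (gw_summable α τ H t₀ hα hH).mul_left K
  refine Summable.of_norm_bounded hs fun n => ?_
  rw [norm_mul, Real.norm_of_nonneg (gw_nonneg _ _ _ hH), Real.norm_eq_abs]
  exact mul_le_mul_of_nonneg_right (hF _) (gw_nonneg _ _ _ hH)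

lemma DS_real (α t₀ τ H : ℝ) (F : ℝ → ℝ) : DS α t₀ τ H (fun t => (F t : ℂ)) = (DR α t₀ τ H F : ℂ) := by
  unfold DS DR
  push_cast
  rfl

theorem disc_expand (α t₀ τ H : ℝ) (hα : 0 < α) (hH : 0 < H) (f g : ℕ → ℝ) (X Y : ℝ) :
    DS α t₀ τ H (fun t => Dp f X (1 / 2 + t * Complex.I) * (starRingEnd ℂ) (Dp g Y (1 / 2 + t * Complex.I))) =
    ∑ n ∈ Icc 1 ⌊X⌋₊, ∑ l ∈ Icc 1 ⌊Y⌋₊,
      (((f n * (Real.sqrt n)⁻¹ : ℝ) : ℂ) * ((g l * (Real.sqrt l)⁻¹ : ℝ) : ℂ)) *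
        ((α : ℂ) * ∑' k : ℤ, ex (0 - Real.log n + Real.log l) (t₀ + α * k) * (gw τ H (t₀ + α * k) : ℂ)) := by
  have hex : ∀ x : ℝ, Summable fun k : ℤ => ex x (t₀ + α * k) * (gw τ H (t₀ + α * k) : ℂ) := fun x =>
    DS_summable α t₀ τ H hα hH (ex x) 1 fun t => (ex_norm x t).le
  unfold DS
  have e : ∀ k : ℤ, Dp f X (1 / 2 + ((t₀ + α * k : ℝ) : ℂ) * Complex.I) *
      (starRingEnd ℂ) (Dp g Y (1 / 2 + ((t₀ + α * k : ℝ) : ℂ) * Complex.I)) * (gw τ H (t₀ + α * k) : ℂ) =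
      ∑ n ∈ Icc 1 ⌊X⌋₊, ∑ l ∈ Icc 1 ⌊Y⌋₊,
      (((f n * (Real.sqrt n)⁻¹ : ℝ) : ℂ) * ((g l * (Real.sqrt l)⁻¹ : ℝ) : ℂ)) *
        (ex (0 - Real.log n + Real.log l) (t₀ + α * k) * (gw τ H (t₀ + α * k) : ℂ)) := by
    intro k
    rw [Dp_line, Dp_line_conj, sum_mul_sum, sum_mul]
    refine sum_congr rfl fun n _ => ?_
    rw [sum_mul]
    refine sum_congr rfl fun l _ => ?_
    rw [show 0 - Real.log n + Real.log l = -Real.log n + Real.log l by ring, ex_add]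
    ring
  simp only [e]
  rw [Summable.tsum_finsetSum fun n _ => summable_sum fun l _ => (hex _).mul_left _, mul_sum]
  refine sum_congr rfl fun n _ => ?_
  rw [Summable.tsum_finsetSum fun l _ => (hex _).mul_left _, mul_sum]
  refine sum_congr rfl fun l _ => ?_
  rw [tsum_mul_left]
  ring

/-- only near pairs contribute -/
theorem disc_TT (α t₀ τ H : ℝ) (hα : 0 < α) (hH : 2 ≤ H) (f g : ℕ → ℝ) (X Y ρ : ℝ) (hρ : 0 ≤ ρ) (hρ1 : ρ ≤ 1)
    (hY : 1 ≤ Y) (hYX : Y ≤ X) (M : ℕ) (hM : Real.log X + 1 ≤ 2 * Real.pi * (M + 1) / α) :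
    ‖DS α t₀ τ H (fun t => Dp f X (1 / 2 + t * Complex.I) * (starRingEnd ℂ) (Dp g Y (1 / 2 + t * Complex.I))) -
      TT f g X Y τ H 0‖ ≤
      (∑ m ∈ (Icc (-(M:ℤ)) M).erase 0, NN f g X Y ρ (om α m)) + l1 f X * l1 g Y * (CA α * gq (H / 2) ρ) := by
  have hX0 : 0 < X := by linarith
  rw [disc_expand α t₀ τ H hα (by linarith) f g X Y]
  unfold TT
  rw [← sum_sub_distrib]
  simp only [← sum_sub_distrib, ← mul_sub]
  have e1 : ∑ m ∈ (Icc (-(M:ℤ)) M).erase 0, NN f g X Y ρ (om α m) =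
      ∑ n ∈ Icc 1 ⌊X⌋₊, ∑ l ∈ Icc 1 ⌊Y⌋₊, ∑ m ∈ (Icc (-(M:ℤ)) M).erase 0,
        (if |om α m - Real.log n + Real.log l| < ρ then
          (|f n| * (Real.sqrt n)⁻¹) * (|g l| * (Real.sqrt l)⁻¹) else 0) := by
    unfold NN
    rw [sum_comm]
    refine sum_congr rfl fun n _ => ?_
    rw [sum_comm]
  rw [e1]
  unfold l1
  rw [sum_mul_sum, sum_mul, ← sum_add_distrib]
  refine norm_sum_le_of_le _ fun n hn => ?_
  rw [sum_mul, ← sum_add_distrib]
  refine norm_sum_le_of_le _ fun l hl => ?_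
  rw [mem_Icc] at hn hl
  have hn0 : (0:ℝ) < n := by exact_mod_cast hn.1
  have hl0 : (0:ℝ) < l := by exact_mod_cast hl.1
  have hnX : (n:ℝ) ≤ X := (Nat.cast_le.mpr hn.2).trans (Nat.floor_le (by linarith))
  have hlY : (l:ℝ) ≤ Y := (Nat.cast_le.mpr hl.2).trans (Nat.floor_le (by linarith))
  have hln : 0 ≤ Real.log n := Real.log_nonneg (by exact_mod_cast hn.1)
  have hll : 0 ≤ Real.log l := Real.log_nonneg (by exact_mod_cast hl.1)
  have hlnX : Real.log n ≤ Real.log X := Real.log_le_log hn0 hnX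
  have hllX : Real.log l ≤ Real.log X := Real.log_le_log hl0 (hlY.trans hYX)
  have h1 := one_freq α τ H t₀ (0 - Real.log n + Real.log l) ρ hα hH hρ (Icc (-(M:ℤ)) M) (by
    intro m hm
    have hm2 : (M:ℝ) + 1 ≤ |(m:ℝ)| := by
      rw [mem_Icc, not_and_or, not_le, not_le] at hm
      have : (M:ℤ) + 1 ≤ |m| := by
        rcases hm with h | h
        · rw [abs_of_neg (by omega)]; omega
        · rw [abs_of_pos (by omega)]; omega
      exact_mod_cast this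
    have h2 : Real.log X + 1 ≤ |om α m| := by
      unfold om
      rw [abs_div, abs_of_pos hα, abs_mul, abs_of_pos (by positivity : (0:ℝ) < 2 * Real.pi)]
      refine hM.trans ?_
      gcongr
    have h3 : |om α m| ≤ |0 - Real.log n + Real.log l + om α m| + |Real.log n - Real.log l| := by
      have := abs_add_le (0 - Real.log n + Real.log l + om α m) (Real.log n - Real.log l)
      rw [show 0 - Real.log n + Real.log l + om α m + (Real.log n - Real.log l) = om α m by ring] at this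
      exact this
    have h4 : |Real.log n - Real.log l| ≤ Real.log X := by
      rw [abs_le]; constructor <;> linarith
    linarith)
  rw [norm_mul, norm_mul, Complex.norm_real, Complex.norm_real, Real.norm_eq_abs, Real.norm_eq_abs, abs_mul,
    abs_mul, abs_inv, abs_inv, abs_of_nonneg (Real.sqrt_nonneg _), abs_of_nonneg (Real.sqrt_nonneg _)]
  set W := (|f n| * (Real.sqrt n)⁻¹) * (|g l| * (Real.sqrt l)⁻¹) with hW
  have hW0 : 0 ≤ W := by positivity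
  have hW1 : W ≤ |f n| * |g l| := by
    have a1 := inv_sqrt_le_one hn.1
    have a2 := inv_sqrt_le_one hl.1
    calc W ≤ (|f n| * 1) * (|g l| * 1) := by rw [hW]; gcongr
      _ = _ := by ring
  have hC : 0 ≤ CA α * gq (H / 2) ρ := mul_nonneg (by linarith [CA_ge_one α hα]) (gq_nonneg _ _)
  calc W * ‖(α : ℂ) * ∑' k : ℤ, ex (0 - Real.log n + Real.log l) (t₀ + α * k) * (gw τ H (t₀ + α * k) : ℂ) -
        ex (0 - Real.log n + Real.log l) τ * (gq H (0 - Real.log n + Real.log l) : ℝ)‖ ≤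
      W * ((∑ m ∈ (Icc (-(M:ℤ)) M).erase 0, if |0 - Real.log n + Real.log l + om α m| < ρ then (1:ℝ) else 0) +
        CA α * gq (H / 2) ρ) := by gcongr
    _ = (∑ m ∈ (Icc (-(M:ℤ)) M).erase 0, (if |om α m - Real.log n + Real.log l| < ρ then W else 0)) +
        W * (CA α * gq (H / 2) ρ) := by
        rw [mul_add, mul_sum]
        congr 1
        refine sum_congr rfl fun m _ => ?_
        rw [show 0 - Real.log n + Real.log l + om α m = om α m - Real.log n + Real.log l by ring]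
        split_ifs <;> simp
    _ ≤ _ := by
        gcongr

/-- far frequencies: few near pairs -/
theorem NN_crude (f g : ℕ → ℝ) (X Y ρ ω K W : ℝ) (hX : 1 ≤ X) (hY : 1 ≤ Y) (hYX : Y ≤ X) (hρ : 0 ≤ ρ)
    (hρ1 : ρ ≤ 1) (hK : 1 ≤ K) (hf : ∀ n : ℕ, 1 ≤ n → |f n| ≤ K * (n:ℝ) ^ (1 / 4 : ℝ))
    (hg : ∀ n : ℕ, 1 ≤ n → |g n| ≤ K * (n:ℝ) ^ (1 / 4 : ℝ)) (hWY : Real.log Y + 1 ≤ W) (hω : W < |ω|) :
    NN f g X Y ρ ω ≤ K ^ 2 * Y ^ 2 * (2 * Real.exp (-(W / 4)) + 30 * ρ * X ^ (3 / 4 : ℝ)) := by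
  have hX0 : 0 < X := by linarith
  have hY0 : 0 < Y := by linarith
  have hK0 : 0 < K := by linarith
  have hB0 : 0 ≤ 2 * Real.exp (-(W / 4)) + 30 * ρ * X ^ (3 / 4 : ℝ) := by positivity
  -- a fixed `l`
  have hone : ∀ l ∈ Icc 1 ⌊Y⌋₊, ∑ n ∈ Icc 1 ⌊X⌋₊, (if |ω - Real.log n + Real.log l| < ρ then
      (|f n| * (Real.sqrt n)⁻¹) * (|g l| * (Real.sqrt l)⁻¹) else 0) ≤
      K ^ 2 * (Y * (2 * Real.exp (-(W / 4)) + 30 * ρ * X ^ (3 / 4 : ℝ))) := by
    intro l hl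
    rw [mem_Icc] at hl
    have hl0 : (0:ℝ) < l := by exact_mod_cast hl.1
    have hl1 : (1:ℝ) ≤ l := by exact_mod_cast hl.1
    have hlY : (l:ℝ) ≤ Y := (Nat.cast_le.mpr hl.2).trans (Nat.floor_le (by linarith))
    have hll : 0 ≤ Real.log l := Real.log_nonneg hl1
    have hllY : Real.log l ≤ Real.log Y := Real.log_le_log hl0 hlY
    rw [← sum_filter]
    set S := (Icc 1 ⌊X⌋₊).filter (fun n : ℕ => |ω - Real.log n + Real.log l| < ρ) with hS
    rcases S.eq_empty_or_nonempty with h0 | ⟨n0, hn0⟩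
    · rw [h0, sum_empty]; positivity
    rw [hS, mem_filter, mem_Icc] at hn0
    obtain ⟨⟨k1, k2⟩, k3⟩ := hn0
    rw [abs_lt] at k3
    have hn01 : (1:ℝ) ≤ n0 := by exact_mod_cast k1
    have hn0X : (n0:ℝ) ≤ X := (Nat.cast_le.mpr k2).trans (Nat.floor_le (by linarith))
    have hln0 : 0 ≤ Real.log n0 := Real.log_nonneg hn01
    have hln0X : Real.log n0 ≤ Real.log X := Real.log_le_log (by linarith) hn0X
    have hlY0 : 0 ≤ Real.log Y := Real.log_nonneg hY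
    have hω0 : 0 < ω := by
      by_contra hneg
      rw [not_lt] at hneg
      rw [abs_of_nonpos hneg] at hω
      linarith
    rw [abs_of_pos hω0] at hω
    have hωX : ω ≤ Real.log X + 1 := by linarith
    -- the points lie in a short interval
    obtain ⟨E, hE⟩ : ∃ E : ℝ, E = l * Real.exp ω := ⟨_, rfl⟩
    have hE0 : 0 < E := by rw [hE]; positivity
    have hlogE : Real.log E = Real.log l + ω := by
      rw [hE, Real.log_mul hl0.ne' (Real.exp_ne_zero _), Real.log_exp]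
    have hmem : ∀ n ∈ S, E * Real.exp (-ρ) < n ∧ (n:ℝ) < E * Real.exp ρ ∧ 1 ≤ n := by
      intro n hn
      rw [hS, mem_filter, mem_Icc, abs_lt] at hn
      obtain ⟨⟨a1, a2⟩, a3, a4⟩ := hn
      have hn0 : (0:ℝ) < n := by exact_mod_cast a1
      refine ⟨?_, ?_, a1⟩
      · rw [← Real.log_lt_log_iff (by positivity) hn0, Real.log_mul hE0.ne' (Real.exp_ne_zero _), Real.log_exp,
          hlogE]
        linarith
      · rw [← Real.log_lt_log_iff hn0 (by positivity), Real.log_mul hE0.ne' (Real.exp_ne_zero _), Real.log_exp,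
          hlogE]
        linarith
    have hexp : Real.exp ρ - Real.exp (-ρ) ≤ 4 * ρ := by
      have h1 : Real.exp ρ ≤ 1 + ρ + ρ ^ 2 := by
        have := Real.abs_exp_sub_one_sub_id_le (x := ρ) (by rw [abs_of_nonneg hρ]; exact hρ1)
        rw [abs_le] at this
        linarith [this.2]
      have h2 := Real.add_one_le_exp (-ρ)
      nlinarith
    have hcard : (S.card : ℝ) ≤ 1 + 4 * ρ * E := by
      have hsub : S ⊆ Ioc ⌊E * Real.exp (-ρ)⌋₊ ⌊E * Real.exp ρ⌋₊ := by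
        intro n hn
        obtain ⟨a1, a2, a3⟩ := hmem n hn
        rw [mem_Ioc]
        refine ⟨?_, Nat.le_floor a2.le⟩
        rw [Nat.floor_lt (by positivity)]
        exact a1
      have h1 := card_le_card hsub
      rw [Nat.card_Ioc] at h1
      have h2 : (S.card : ℝ) ≤ ((⌊E * Real.exp ρ⌋₊ - ⌊E * Real.exp (-ρ)⌋₊ : ℕ) : ℝ) := by exact_mod_cast h1
      have h3 : ⌊E * Real.exp (-ρ)⌋₊ ≤ ⌊E * Real.exp ρ⌋₊ := by
        apply Nat.floor_le_floor
        gcongr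
        linarith
      rw [Nat.cast_sub h3] at h2
      have h4 := Nat.floor_le (by positivity : 0 ≤ E * Real.exp ρ)
      have h5 := Nat.lt_floor_add_one (E * Real.exp (-ρ))
      have h6 : E * (Real.exp ρ - Real.exp (-ρ)) ≤ E * (4 * ρ) := by gcongr
      nlinarith
    -- the terms
    have hterm : ∀ n ∈ S, (|f n| * (Real.sqrt n)⁻¹) * (|g l| * (Real.sqrt l)⁻¹) ≤
        K ^ 2 * (2 * E ^ (-(1 / 4) : ℝ)) := by
      intro n hn
      obtain ⟨a1, a2, a3⟩ := hmem n hn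
      have hn0 : (0:ℝ) < n := by exact_mod_cast a3
      have b1 : |f n| * (Real.sqrt n)⁻¹ ≤ K * (n:ℝ) ^ (-(1 / 4) : ℝ) := by
        have : (Real.sqrt n)⁻¹ = (n:ℝ) ^ (-(1 / 2) : ℝ) := by
          rw [Real.sqrt_eq_rpow, ← Real.rpow_neg hn0.le]
        rw [this]
        calc |f n| * (n:ℝ) ^ (-(1 / 2) : ℝ) ≤ (K * (n:ℝ) ^ (1 / 4 : ℝ)) * (n:ℝ) ^ (-(1 / 2) : ℝ) := by
              gcongr; exact hf n a3
          _ = K * ((n:ℝ) ^ (1 / 4 : ℝ) * (n:ℝ) ^ (-(1 / 2) : ℝ)) := by ring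
          _ = _ := by rw [← Real.rpow_add hn0]; norm_num
      have b2 : |g l| * (Real.sqrt l)⁻¹ ≤ K := by
        have e3 : (Real.sqrt l)⁻¹ = (l:ℝ) ^ (-(1 / 2) : ℝ) := by
          rw [Real.sqrt_eq_rpow, ← Real.rpow_neg hl0.le]
        rw [e3]
        calc |g l| * (l:ℝ) ^ (-(1 / 2) : ℝ) ≤ (K * (l:ℝ) ^ (1 / 4 : ℝ)) * (l:ℝ) ^ (-(1 / 2) : ℝ) := by
              gcongr; exact hg l hl.1
          _ = K * ((l:ℝ) ^ (1 / 4 : ℝ) * (l:ℝ) ^ (-(1 / 2) : ℝ)) := by ring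
          _ = K * (l:ℝ) ^ (-(1 / 4) : ℝ) := by rw [← Real.rpow_add hl0]; norm_num
          _ ≤ K * 1 := by
              gcongr
              exact Real.rpow_le_one_of_one_le_of_nonpos hl1 (by norm_num)
          _ = K := mul_one K
      have b3 : (n:ℝ) ^ (-(1 / 4) : ℝ) ≤ 2 * E ^ (-(1 / 4) : ℝ) := by
        have c1 : (n:ℝ) ^ (-(1 / 4) : ℝ) ≤ (E * Real.exp (-ρ)) ^ (-(1 / 4) : ℝ) :=
          Real.rpow_le_rpow_of_nonpos (by positivity) a1.le (by norm_num)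
        have c2 : (E * Real.exp (-ρ)) ^ (-(1 / 4) : ℝ) = E ^ (-(1 / 4) : ℝ) * Real.exp (ρ / 4) := by
          rw [Real.mul_rpow hE0.le (Real.exp_pos _).le, ← Real.exp_mul]
          congr 2
          ring
        have c3 : Real.exp (ρ / 4) ≤ 2 := by
          have : Real.exp (ρ / 4) ≤ Real.exp (1 / 4) := Real.exp_le_exp.mpr (by linarith)
          have h4 : Real.exp (1 / 4) ^ 4 ≤ 2 ^ 4 := by
            rw [← Real.exp_nat_mul]
            have : Real.exp (((4:ℕ):ℝ) * (1 / 4)) = Real.exp 1 := by norm_num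
            rw [this]
            linarith [Real.exp_one_lt_d9]
          exact this.trans (le_of_pow_le_pow_left₀ (by norm_num) (by norm_num) h4)
        rw [c2] at c1
        refine c1.trans ?_
        rw [mul_comm 2]
        gcongr
      calc (|f n| * (Real.sqrt n)⁻¹) * (|g l| * (Real.sqrt l)⁻¹) ≤ (K * (n:ℝ) ^ (-(1 / 4) : ℝ)) * K := by gcongr
        _ = K ^ 2 * (n:ℝ) ^ (-(1 / 4) : ℝ) := by ring
        _ ≤ _ := by gcongr
    have hEW : E ^ (-(1 / 4) : ℝ) ≤ Real.exp (-(W / 4)) := by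
      rw [Real.rpow_def_of_pos hE0, hlogE]
      apply Real.exp_le_exp.mpr
      linarith
    have hEX : E ^ (3 / 4 : ℝ) ≤ 3 * (Y * X ^ (3 / 4 : ℝ)) := by
      have c1 : E ≤ Y * (X * Real.exp 1) := by
        rw [hE]
        have : Real.exp ω ≤ X * Real.exp 1 := by
          calc Real.exp ω ≤ Real.exp (Real.log X + 1) := Real.exp_le_exp.mpr hωX
            _ = X * Real.exp 1 := by rw [Real.exp_add, Real.exp_log hX0]
        gcongr
      have c2 : Y ^ (3 / 4 : ℝ) ≤ Y := by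
        calc Y ^ (3 / 4 : ℝ) ≤ Y ^ (1:ℝ) := Real.rpow_le_rpow_of_exponent_le hY (by norm_num)
          _ = Y := Real.rpow_one Y
      have c3 : Real.exp 1 ^ (3 / 4 : ℝ) ≤ 3 := by
        calc Real.exp 1 ^ (3 / 4 : ℝ) ≤ Real.exp 1 ^ (1:ℝ) :=
              Real.rpow_le_rpow_of_exponent_le (Real.one_le_exp (by norm_num)) (by norm_num)
          _ = Real.exp 1 := Real.rpow_one _
          _ ≤ 3 := by linarith [Real.exp_one_lt_d9]
      calc E ^ (3 / 4 : ℝ) ≤ (Y * (X * Real.exp 1)) ^ (3 / 4 : ℝ) :=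
            Real.rpow_le_rpow hE0.le c1 (by norm_num)
        _ = Y ^ (3 / 4 : ℝ) * (X ^ (3 / 4 : ℝ) * Real.exp 1 ^ (3 / 4 : ℝ)) := by
            rw [Real.mul_rpow hY0.le (by positivity), Real.mul_rpow hX0.le (Real.exp_pos _).le]
        _ ≤ Y * (X ^ (3 / 4 : ℝ) * 3) := by gcongr
        _ = _ := by ring
    have hEE : E * E ^ (-(1 / 4) : ℝ) = E ^ (3 / 4 : ℝ) := by
      nth_rewrite 1 [← Real.rpow_one E]
      rw [← Real.rpow_add hE0]
      norm_num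
    calc ∑ n ∈ S, (|f n| * (Real.sqrt n)⁻¹) * (|g l| * (Real.sqrt l)⁻¹) ≤
        ∑ _n ∈ S, K ^ 2 * (2 * E ^ (-(1 / 4) : ℝ)) := sum_le_sum hterm
      _ = S.card * (K ^ 2 * (2 * E ^ (-(1 / 4) : ℝ))) := by rw [sum_const, nsmul_eq_mul]
      _ ≤ (1 + 4 * ρ * E) * (K ^ 2 * (2 * E ^ (-(1 / 4) : ℝ))) := by gcongr
      _ = K ^ 2 * (2 * E ^ (-(1 / 4) : ℝ) + 8 * ρ * (E * E ^ (-(1 / 4) : ℝ))) := by ring
      _ ≤ K ^ 2 * (2 * Real.exp (-(W / 4)) + 8 * ρ * (3 * (Y * X ^ (3 / 4 : ℝ)))) := by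
          rw [hEE]; gcongr
      _ ≤ K ^ 2 * (Y * (2 * Real.exp (-(W / 4)) + 30 * ρ * X ^ (3 / 4 : ℝ))) := by
          refine mul_le_mul_of_nonneg_left ?_ (by positivity)
          have d1 : 2 * Real.exp (-(W / 4)) ≤ Y * (2 * Real.exp (-(W / 4))) := by
            have := Real.exp_pos (-(W / 4))
            nlinarith
          have d2 : 0 ≤ ρ * (Y * X ^ (3 / 4 : ℝ)) := by positivity
          nlinarith
  unfold NN
  rw [sum_comm]
  refine (sum_le_sum hone).trans ?_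
  rw [sum_const, nsmul_eq_mul, Nat.card_Icc, Nat.add_sub_cancel]
  calc (⌊Y⌋₊ : ℝ) * (K ^ 2 * (Y * (2 * Real.exp (-(W / 4)) + 30 * ρ * X ^ (3 / 4 : ℝ)))) ≤
      Y * (K ^ 2 * (Y * (2 * Real.exp (-(W / 4)) + 30 * ρ * X ^ (3 / 4 : ℝ)))) := by
        gcongr
        exact Nat.floor_le (by linarith)
    _ = _ := by ring

end

end Pool.Agent.U615.EP
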