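import Pool.Agent.U615.EP.D

set_option autoImplicit false

/-! Mean values over the progression. -/

namespace Pool.Agent.U615.EP

open Finset MeasureTheory Filter Topology
open Pool.Agent.H306R2 Pool.Agent.R311.BS

noncomputable section

/-- the bound for a far frequency -/
def bd (K Y W ρ X : ℝ) : ℝ := K ^ 2 * Y ^ 2 * (2 * Real.exp (-(W / 4)) + 30 * ρ * X ^ (3 / 4 : ℝ))

lemma bd_nonneg {K Y W ρ X : ℝ} (hρ : 0 ≤ ρ) (hX : 0 ≤ X) : 0 ≤ bd K Y W ρ X := by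
  unfold bd; positivity

theorem disc_mean (α t₀ τ H : ℝ) (hα : 0 < α) (hH : 2 ≤ H) {κ : ℝ} (hκ : 1 ≤ κ) (P : ℕ) (f g : ℕ → ℝ)
    (X Y Z ρ W K : ℝ) (hY : 1 ≤ Y) (hYX : Y ≤ X) (hρ : 0 ≤ ρ) (hρ1 : ρ ≤ 1) (hWY : Real.log Y + 1 ≤ W)
    (hZ : Y * Real.exp (W + 1) ≤ Z) (hρ2 : 2 * ρ ≤ 1 / (Z * Y))
    (hf : ∀ n : ℕ, (n:ℝ) ≤ Z → |f n| ≤ dv κ n ∧ (f n ≠ 0 → n.Coprime P))
    (hg : ∀ l : ℕ, |g l| ≤ dv κ l ∧ (g l ≠ 0 → l.Coprime P)) (hK : 1 ≤ K)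
    (hfK : ∀ n : ℕ, 1 ≤ n → |f n| ≤ K * (n:ℝ) ^ (1 / 4 : ℝ))
    (hgK : ∀ n : ℕ, 1 ≤ n → |g n| ≤ K * (n:ℝ) ^ (1 / 4 : ℝ))
    (M : ℕ) (hM : Real.log X + 1 ≤ 2 * Real.pi * (M + 1) / α)
    (Γ : ℤ → ℝ) (hΓ0 : ∀ m, 0 ≤ Γ m)
    (hΓ : ∀ m : ℤ, m ≠ 0 → |om α m| ≤ W → ∀ a b : ℕ, 1 ≤ a → 1 ≤ b → a.Coprime b → a.Coprime P →
      b.Coprime P → |om α m - Real.log a + Real.log b| < ρ →
      dv κ a * dv κ b * (Real.sqrt a)⁻¹ * (Real.sqrt b)⁻¹ ≤ Γ m)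
    (ε : ℝ) (hε : ∑ m ∈ (Icc (-(M:ℤ)) M).erase 0, Γ m ≤ ε) :
    ‖DS α t₀ τ H (fun t => Dp f X (1 / 2 + t * Complex.I) * (starRingEnd ℂ) (Dp g Y (1 / 2 + t * Complex.I))) -
      ((∑ n ∈ Icc 1 ⌊Y⌋₊, f n * g n / n : ℝ) : ℂ)‖ ≤
      ε * (∑ v ∈ Icc 1 ⌊Y⌋₊, dv κ v ^ 2 / v) + (2 * M + 1) * bd K Y W ρ X +
        (CA α + 1) * (l1 f X * l1 g Y * gq (H / 2) ρ) := by
  have hκ0 : 0 ≤ κ := by linarith
  have hX : 1 ≤ X := hY.trans hYX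
  have hlogY : 0 ≤ Real.log Y := Real.log_nonneg hY
  have hW0 : 0 ≤ W := by linarith
  have hZ1 : Y * Real.exp 1 ≤ Z := by
    refine le_trans ?_ hZ
    gcongr
    linarith
  have hZpos : 0 < Z := lt_of_lt_of_le (by positivity) hZ1
  have h1 := disc_TT α t₀ τ H hα hH f g X Y ρ hρ hρ1 hY hYX M hM
  have h2 := zero_freq f g X Y Z ρ τ H hY hYX hρ hρ1 hZ1 (by
    have h1 : 1 / (Z * Y) ≤ 1 / Z := one_div_le_one_div_of_le hZpos (by nlinarith)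
    linarith)
  have h3 : gq H ρ ≤ gq (H / 2) ρ := gq_mono (by linarith) (by linarith) ρ
  have hl : 0 ≤ l1 f X * l1 g Y := mul_nonneg (l1_nonneg _ _) (l1_nonneg _ _)
  set U := ∑ v ∈ Icc 1 ⌊Y⌋₊, dv κ v ^ 2 / v with hU
  have hU0 : 0 ≤ U := sum_nonneg fun v _ => by positivity
  have hb0 : 0 ≤ bd K Y W ρ X := bd_nonneg hρ (by linarith)
  have h4 : ∑ m ∈ (Icc (-(M:ℤ)) M).erase 0, NN f g X Y ρ (om α m) ≤
      ∑ m ∈ (Icc (-(M:ℤ)) M).erase 0, (Γ m * U + bd K Y W ρ X) := by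
    refine sum_le_sum fun m hm => ?_
    rw [mem_erase] at hm
    by_cases hmW : |om α m| ≤ W
    · have := near_bound κ hκ0 (dv_submul hκ) P f g X Y Z ρ (om α m) (Γ m) hY hρ1 (by
        refine le_trans ?_ hZ
        gcongr) hρ2 hf hg (hΓ0 m) (hΓ m hm.1 hmW)
      linarith
    · rw [not_le] at hmW
      have := NN_crude f g X Y ρ (om α m) K W hX hY hYX hρ hρ1 hK hfK hgK hWY hmW
      have h5 : 0 ≤ Γ m * U := mul_nonneg (hΓ0 m) hU0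
      unfold bd
      linarith
  rw [sum_add_distrib, ← sum_mul, sum_const, nsmul_eq_mul] at h4
  have hcard : (((Icc (-(M:ℤ)) M).erase 0).card : ℝ) ≤ 2 * M + 1 := by
    have h5 : ((Icc (-(M:ℤ)) M).erase 0).card ≤ 2 * M + 1 := by
      refine (card_erase_le).trans ?_
      rw [Int.card_Icc]
      omega
    exact_mod_cast h5
  have h5 : (∑ m ∈ (Icc (-(M:ℤ)) M).erase 0, Γ m) * U ≤ ε * U := by gcongr
  have h6 : (((Icc (-(M:ℤ)) M).erase 0).card : ℝ) * bd K Y W ρ X ≤ (2 * M + 1) * bd K Y W ρ X := by gcongr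
  have h7 := norm_sub_le_norm_sub_add_norm_sub
    (DS α t₀ τ H (fun t => Dp f X (1 / 2 + t * Complex.I) * (starRingEnd ℂ) (Dp g Y (1 / 2 + t * Complex.I))))
    (TT f g X Y τ H 0) ((∑ n ∈ Icc 1 ⌊Y⌋₊, f n * g n / n : ℝ) : ℂ)
  have h8 : l1 f X * l1 g Y * gq H ρ ≤ l1 f X * l1 g Y * gq (H / 2) ρ := by gcongr
  have h9 : l1 f X * l1 g Y * (CA α * gq (H / 2) ρ) = CA α * (l1 f X * l1 g Y * gq (H / 2) ρ) := by ring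
  have h10 : (CA α + 1) * (l1 f X * l1 g Y * gq (H / 2) ρ) =
    CA α * (l1 f X * l1 g Y * gq (H / 2) ρ) + l1 f X * l1 g Y * gq (H / 2) ρ := by ring
  linarith

theorem disc_sq (α t₀ τ H : ℝ) (hα : 0 < α) (hH : 2 ≤ H) {κ : ℝ} (hκ : 1 ≤ κ) (P : ℕ) (f : ℕ → ℝ)
    (X Y Z ρ W K : ℝ) (hY : 1 ≤ Y) (hYX : Y ≤ X) (hρ : 0 ≤ ρ) (hρ1 : ρ ≤ 1) (hWY : Real.log Y + 1 ≤ W)
    (hZ : Y * Real.exp (W + 1) ≤ Z) (hρ2 : 2 * ρ ≤ 1 / (Z * Y))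
    (hf : ∀ l : ℕ, |f l| ≤ dv κ l ∧ (f l ≠ 0 → l.Coprime P)) (hK : 1 ≤ K)
    (hfK : ∀ n : ℕ, 1 ≤ n → |f n| ≤ K * (n:ℝ) ^ (1 / 4 : ℝ))
    (M : ℕ) (hM : Real.log X + 1 ≤ 2 * Real.pi * (M + 1) / α)
    (Γ : ℤ → ℝ) (hΓ0 : ∀ m, 0 ≤ Γ m)
    (hΓ : ∀ m : ℤ, m ≠ 0 → |om α m| ≤ W → ∀ a b : ℕ, 1 ≤ a → 1 ≤ b → a.Coprime b → a.Coprime P →
      b.Coprime P → |om α m - Real.log a + Real.log b| < ρ →
      dv κ a * dv κ b * (Real.sqrt a)⁻¹ * (Real.sqrt b)⁻¹ ≤ Γ m)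
    (ε : ℝ) (hε : ∑ m ∈ (Icc (-(M:ℤ)) M).erase 0, Γ m ≤ ε) :
    DR α t₀ τ H (fun t => ‖Dp f Y (1 / 2 + t * Complex.I)‖ ^ 2) ≤
      (1 + ε) * (∑ v ∈ Icc 1 ⌊Y⌋₊, dv κ v ^ 2 / v) + (2 * M + 1) * bd K Y W ρ X +
        (CA α + 1) * (l1 f Y * l1 f Y * gq (H / 2) ρ) := by
  have hX : 1 ≤ X := hY.trans hYX
  have h := disc_mean α t₀ τ H hα hH hκ P f f Y Y Z ρ W K hY le_rfl hρ hρ1 hWY hZ hρ2 (fun n _ => hf n) hf hK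
    hfK hfK M (by
      have := Real.log_le_log (by linarith) hYX
      linarith) Γ hΓ0 hΓ ε hε
  have e0 : (fun t : ℝ => Dp f Y (1 / 2 + t * Complex.I) * (starRingEnd ℂ) (Dp f Y (1 / 2 + t * Complex.I))) =
      fun t : ℝ => (((‖Dp f Y (1 / 2 + t * Complex.I)‖ ^ 2 : ℝ)) : ℂ) := by
    funext t
    rw [Complex.mul_conj, Complex.normSq_eq_norm_sq]
  rw [e0, DS_real, ← Complex.ofReal_sub, Complex.norm_real, Real.norm_eq_abs] at h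
  have h2 := (abs_le.mp h).2
  have h3 : ∑ n ∈ Icc 1 ⌊Y⌋₊, f n * f n / n ≤ ∑ v ∈ Icc 1 ⌊Y⌋₊, dv κ v ^ 2 / v := by
    refine sum_le_sum fun n _ => ?_
    have h4 := (hf n).1
    have h5 : f n * f n ≤ dv κ n ^ 2 := by
      rw [← abs_mul_abs_self (f n), sq]
      exact mul_le_mul h4 h4 (abs_nonneg _) ((abs_nonneg _).trans h4)
    gcongr
  have h4 : bd K Y W ρ Y ≤ bd K Y W ρ X := by
    unfold bd
    gcongr
  have h5 : (2 * (M:ℝ) + 1) * bd K Y W ρ Y ≤ (2 * M + 1) * bd K Y W ρ X := by gcongr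
  linarith

/-- outside the window -/
theorem DS_out (α t₀ τ H R : ℝ) (hα : 0 < α) (hH : 1 ≤ H) (hR : 0 ≤ R) (F : ℝ → ℂ) (K : ℝ) (hK : 0 ≤ K)
    (hF : ∀ t, ‖F t‖ ≤ K) :
    ‖DS α t₀ τ H (fun t => if |t - τ| < R then 0 else F t)‖ ≤
      K * (2 * Real.exp (-(R ^ 2 / (2 * H ^ 2)))) * CA α := by
  have hH0 : 0 < H := by linarith
  unfold DS
  rw [norm_mul, Complex.norm_real, Real.norm_of_nonneg hα.le]
  have hs := (gw_summable α τ (2 * H) t₀ hα (by linarith)).mul_left (K * (2 * Real.exp (-(R ^ 2 / (2 * H ^ 2)))))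
  have hle : ∀ n : ℤ, ‖(if |t₀ + α * n - τ| < R then (0:ℂ) else F (t₀ + α * n)) * (gw τ H (t₀ + α * n) : ℂ)‖ ≤
      K * (2 * Real.exp (-(R ^ 2 / (2 * H ^ 2)))) * gw τ (2 * H) (t₀ + α * n) := by
    intro n
    have g1 := gw_nonneg τ (2 * H) (t₀ + α * n) (by linarith)
    rw [norm_mul, Complex.norm_real, Real.norm_of_nonneg (gw_nonneg _ _ _ hH0)]
    split_ifs with h
    · rw [norm_zero, zero_mul]; positivity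
    · have h1 := gw_out τ H R (t₀ + α * n) hH0 hR (not_lt.mp h)
      have h2 := hF (t₀ + α * n)
      have h3 := gw_nonneg τ H (t₀ + α * n) hH0
      calc ‖F (t₀ + α * n)‖ * gw τ H (t₀ + α * n) ≤
          K * (2 * Real.exp (-(R ^ 2 / (2 * H ^ 2))) * gw τ (2 * H) (t₀ + α * n)) := by gcongr
        _ = _ := by ring
  have hs2 : Summable fun n : ℤ => ‖(if |t₀ + α * n - τ| < R then (0:ℂ) else F (t₀ + α * n)) *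
      (gw τ H (t₀ + α * n) : ℂ)‖ := Summable.of_nonneg_of_le (fun n => norm_nonneg _) hle hs
  have h1 := (norm_tsum_le_tsum_norm hs2).trans (hs2.tsum_le_tsum hle hs)
  rw [tsum_mul_left] at h1
  have h2 := mass_le α τ (2 * H) t₀ hα (by linarith)
  have h3 : 0 ≤ K * (2 * Real.exp (-(R ^ 2 / (2 * H ^ 2)))) := by positivity
  calc α * ‖∑' n : ℤ, (if |t₀ + α * n - τ| < R then (0:ℂ) else F (t₀ + α * n)) * (gw τ H (t₀ + α * n) : ℂ)‖ ≤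
      α * (K * (2 * Real.exp (-(R ^ 2 / (2 * H ^ 2)))) * ∑' n : ℤ, gw τ (2 * H) (t₀ + α * n)) := by gcongr
    _ = K * (2 * Real.exp (-(R ^ 2 / (2 * H ^ 2)))) * (α * ∑' n : ℤ, gw τ (2 * H) (t₀ + α * n)) := by ring
    _ ≤ _ := by gcongr

end

end Pool.Agent.U615.EP
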