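import Pool.Agent.U615.EP.E
import Pool.Agent.R311.BS.WD

set_option autoImplicit false

/-! The core inequality for one window of the progression. -/

namespace Pool.Agent.U615.EP

open Finset MeasureTheory Filter Topology
open Pool.Agent.H306R2 Pool.Agent.R311.BS

noncomputable section

lemma mul_abs_le {f f' g g' : ArithmeticFunction ℝ} (h1 : ∀ n, |f n| ≤ f' n) (h2 : ∀ n, |g n| ≤ g' n) (n : ℕ) :
    |(f * g) n| ≤ (f' * g') n := by
  rw [ArithmeticFunction.mul_apply, ArithmeticFunction.mul_apply]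
  refine (abs_sum_le_sum_abs _ _).trans (sum_le_sum fun x _ => ?_)
  rw [abs_mul]
  exact mul_le_mul (h1 _) (h2 _) (abs_nonneg _) ((abs_nonneg _).trans (h1 _))

lemma xA_one (a : ℝ) (n : ℕ) : xA 1 a n = dv a n := by
  rw [xA_apply, if_pos (Nat.coprime_one_right n)]

lemma Bf_abs (q : ℕ) (hq : 2 ≤ q) (P : ℕ) (N X : ℝ) (n : ℕ) : |Bf q P N X n| ≤ dv ((q:ℝ) / 2 + 1) n := by
  have h0 : (0:ℝ) ≤ ((q - 2 : ℕ) : ℝ) * (1 / 2) := by positivity
  have h1 : ∀ n, |(cA P N (1 / 2) ^ (q - 2) : ArithmeticFunction ℝ) n| ≤ xA 1 (((q - 2 : ℕ) : ℝ) * (1 / 2)) n := by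
    intro n
    have h := cA_pow_le P N (α := 1 / 2) (by norm_num) (q - 2) n
    rw [abs_of_nonneg h.1, xA_one]
    exact h.2.trans (xA_le P h0 n)
  have h2 : ∀ n, |muP P n| ≤ xA 1 1 n := by
    intro n
    rw [xA_one, muP_apply]
    split_ifs with h
    · rw [dv_one_left h.2]
      have := ArithmeticFunction.abs_moebius_le_one (n := n)
      exact_mod_cast this
    · rw [abs_zero]
      exact dv_nonneg zero_le_one n
  have h3 : ∀ n, |cA 1 X 1 n| ≤ xA 1 1 n := by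
    intro n
    rw [abs_of_nonneg (cA_nonneg 1 X zero_le_one n)]
    exact cA_le 1 X zero_le_one n
  have h4 := mul_abs_le h1 (mul_abs_le h2 h3) n
  rw [xA_mul, xA_mul, xA_one] at h4
  have e : ((q - 2 : ℕ) : ℝ) * (1 / 2) + (1 + 1) = (q:ℝ) / 2 + 1 := by
    rw [Nat.cast_sub hq]; push_cast; ring
  rw [e] at h4
  exact h4

/-- growth of the divisor functions -/
lemma dv_quarter {κ : ℝ} (hκ : 0 ≤ κ) : ∃ K : ℝ, 1 ≤ K ∧ ∀ n : ℕ, 1 ≤ n → dv κ n ≤ K * (n:ℝ) ^ (1 / 4 : ℝ) := by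
  obtain ⟨C, hC, h⟩ := dv_growth hκ
  refine ⟨C + 1, by linarith, fun n hn => ?_⟩
  have hn0 : (0:ℝ) < n := by exact_mod_cast hn
  by_contra hcon
  rw [not_le] at hcon
  have h1 : ((C + 1) * (n:ℝ) ^ (1 / 4 : ℝ)) ^ 8 ≤ dv κ n ^ 8 := pow_le_pow_left₀ (by positivity) hcon.le 8
  have h2 : ((n:ℝ) ^ (1 / 4 : ℝ)) ^ 8 = (n:ℝ) ^ 2 := by
    rw [← Real.rpow_natCast, ← Real.rpow_mul hn0.le, ← Real.rpow_natCast]
    norm_num
  rw [mul_pow, h2] at h1
  have h3 := h1.trans (h n)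
  have h4 : C + 1 ≤ (C + 1) ^ 8 := by
    calc C + 1 = (C + 1) ^ 1 := (pow_one _).symm
      _ ≤ (C + 1) ^ 8 := pow_le_pow_right₀ (by linarith) (by norm_num)
  have h5 : 0 < (n:ℝ) ^ 2 := by positivity
  nlinarith

/-! ### linearity -/

lemma DS_add (α t₀ τ H : ℝ) (hα : 0 < α) (hH : 0 < H) (F G : ℝ → ℂ) (K L : ℝ) (hF : ∀ t, ‖F t‖ ≤ K)
    (hG : ∀ t, ‖G t‖ ≤ L) : DS α t₀ τ H (fun t => F t + G t) = DS α t₀ τ H F + DS α t₀ τ H G := by
  unfold DS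
  rw [← mul_add, ← (DS_summable α t₀ τ H hα hH F K hF).tsum_add (DS_summable α t₀ τ H hα hH G L hG)]
  congr 1
  refine tsum_congr fun n => ?_
  rw [add_mul]

lemma DS_norm_le_DR (α t₀ τ H : ℝ) (hα : 0 < α) (hH : 0 < H) (F : ℝ → ℂ) (G : ℝ → ℝ) (K : ℝ)
    (hG : ∀ t, |G t| ≤ K) (h : ∀ t, ‖F t‖ ≤ G t) : ‖DS α t₀ τ H F‖ ≤ DR α t₀ τ H G := by
  unfold DS DR
  rw [norm_mul, Complex.norm_real, Real.norm_of_nonneg hα.le]
  refine mul_le_mul_of_nonneg_left ?_ hα.le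
  have hs := DR_summable α t₀ τ H hα hH G K hG
  have hle : ∀ n : ℤ, ‖F (t₀ + α * n) * (gw τ H (t₀ + α * n) : ℂ)‖ ≤ G (t₀ + α * n) * gw τ H (t₀ + α * n) := by
    intro n
    rw [norm_mul, Complex.norm_real, Real.norm_of_nonneg (gw_nonneg _ _ _ hH)]
    exact mul_le_mul_of_nonneg_right (h _) (gw_nonneg _ _ _ hH)
  have hs2 := Summable.of_nonneg_of_le (fun n => norm_nonneg _) hle hs
  exact (norm_tsum_le_tsum_norm hs2).trans (hs2.tsum_le_tsum hle hs)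

lemma DR_const (α t₀ τ H K : ℝ) (hα : 0 < α) (hH : 1 ≤ H) (hK : 0 ≤ K) : DR α t₀ τ H (fun _ => K) ≤ K * CA α := by
  unfold DR
  rw [tsum_mul_left]
  have := mass_le α τ H t₀ hα hH
  calc α * (K * ∑' n : ℤ, gw τ H (t₀ + α * n)) = K * (α * ∑' n : ℤ, gw τ H (t₀ + α * n)) := by ring
    _ ≤ _ := by gcongr

lemma DR_add (α t₀ τ H : ℝ) (hα : 0 < α) (hH : 0 < H) (F G : ℝ → ℝ) (K L : ℝ) (hF : ∀ t, |F t| ≤ K)
    (hG : ∀ t, |G t| ≤ L) : DR α t₀ τ H (fun t => F t + G t) = DR α t₀ τ H F + DR α t₀ τ H G := by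
  unfold DR
  rw [← mul_add, ← (DR_summable α t₀ τ H hα hH F K hF).tsum_add (DR_summable α t₀ τ H hα hH G L hG)]
  congr 1
  refine tsum_congr fun n => ?_
  rw [add_mul]

lemma DR_smul (α t₀ τ H c : ℝ) (F : ℝ → ℝ) : DR α t₀ τ H (fun t => c * F t) = c * DR α t₀ τ H F := by
  unfold DR
  have : ∀ n : ℤ, c * F (t₀ + α * n) * gw τ H (t₀ + α * n) = c * (F (t₀ + α * n) * gw τ H (t₀ + α * n)) :=
    fun n => by ring
  simp only [this]
  rw [tsum_mul_left]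
  ring

lemma DR_nonneg (α t₀ τ H : ℝ) (hα : 0 < α) (hH : 0 < H) (F : ℝ → ℝ) (hF : ∀ t, 0 ≤ F t) : 0 ≤ DR α t₀ τ H F :=
  mul_nonneg hα.le (tsum_nonneg fun n => mul_nonneg (hF _) (gw_nonneg _ _ _ hH))

lemma window_bdd (F : ℝ → ℝ) (hF : Continuous F) (τ R : ℝ) : ∃ K : ℝ, 0 ≤ K ∧
    ∀ t, |if |t - τ| < R then F t else 0| ≤ K := by
  obtain ⟨K, hK⟩ := (isCompact_Icc (a := τ - R) (b := τ + R)).exists_bound_of_continuousOn hF.continuousOn
  refine ⟨max K 0, le_max_right _ _, fun t => ?_⟩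
  split_ifs with h
  · rw [abs_lt] at h
    exact (hK t ⟨by linarith [h.1], by linarith [h.2]⟩).trans (le_max_left _ _)
  · rw [abs_zero]; exact le_max_right _ _

set_option maxHeartbeats 4000000 in
theorem core (q : ℕ) (hq : 2 ≤ q) (J : ℕ) (hJ : (q:ℝ) / 2 ≤ J) (α t₀ : ℝ) (hα : 0 < α) (P : ℕ) (hP : 1 ≤ P)
    (N X Z ρ τ H R ε e₁ μ W K : ℝ) (hN : 1 ≤ N) (hNX : N ^ q ≤ X) (hZX : Z ≤ X)
    (hρ : 0 ≤ ρ) (hρ1 : ρ ≤ 1) (hH : 2 ≤ H) (hR : 0 ≤ R) (he₁ : 0 ≤ e₁) (hμ : 0 < μ)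
    (hWY : Real.log (N ^ q) + 1 ≤ W) (hZ : N ^ q * Real.exp (W + 1) ≤ Z) (hρ2 : 2 * ρ ≤ 1 / (Z * N ^ q))
    (hK : 1 ≤ K) (hK1 : ∀ n : ℕ, 1 ≤ n → dv ((q:ℝ) / 2 + 1) n ≤ K * (n:ℝ) ^ (1 / 4 : ℝ))
    (M : ℕ) (hM : Real.log (N ^ (q - 2) * (P * X)) + 1 ≤ 2 * Real.pi * (M + 1) / α)
    (Γ : ℤ → ℝ) (hΓ0 : ∀ m, 0 ≤ Γ m)
    (hΓ : ∀ m : ℤ, m ≠ 0 → |om α m| ≤ W → ∀ a b : ℕ, 1 ≤ a → 1 ≤ b → a.Coprime b → a.Coprime P →
      b.Coprime P → |om α m - Real.log a + Real.log b| < ρ →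
      dv (q / 2) a * dv (q / 2) b * (Real.sqrt a)⁻¹ * (Real.sqrt b)⁻¹ ≤ Γ m)
    (hε : ∑ m ∈ (Icc (-(M:ℤ)) M).erase 0, Γ m ≤ ε)
    (happ : ∀ t, |t - τ| < R → ‖zl t - zX X t‖ ≤ e₁) :
    SP (q / 2) P ⌊N⌋₊ - ε * (∑ v ∈ Icc 1 ⌊N ^ q⌋₊, dv (q / 2) v ^ 2 / v) -
      (2 * M + 1) * bd K (N ^ q) W ρ (N ^ (q - 2) * (P * X)) -
      (CA α + 1) * ((N ^ (q - 2) * (P * X)) ^ (q + 3) * N ^ (J + 1) * gq (H / 2) ρ) -
      (N ^ (q - 2) * (P * X)) ^ (q + 3) * N ^ (J + 1) * (2 * Real.exp (-(R ^ 2 / (2 * H ^ 2)))) * CA α -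
      e₁ * (P * N ^ (q - 2) * N ^ (J + 1)) * CA α ≤
    μ * (2 * (1 + ε) * (∑ v ∈ Icc 1 ⌊N ^ q⌋₊, dv (q / 2) v ^ 2 / v) +
        2 * ((2 * M + 1) * bd K (N ^ q) W ρ (N ^ (q - 2) * (P * X))) +
        2 * ((CA α + 1) * ((N ^ q) ^ (2 * (q + J + 1)) * gq (H / 2) ρ))) +
      (μ⁻¹) ^ (q - 1) * P ^ q * DR α t₀ τ H (fun t => if |t - τ| < R then ‖zl t‖ ^ q else 0) := by
  set κ : ℝ := (q:ℝ) / 2 with hκdef
  have hqr : (2:ℝ) ≤ q := by exact_mod_cast hq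
  have hκ : 1 ≤ κ := by rw [hκdef]; linarith
  have hκ0 : 0 ≤ κ := by linarith
  have hH0 : 0 < H := by linarith
  have hCA := CA_ge_one α hα
  have hNN : N ≤ N ^ q := by
    calc N = N ^ 1 := (pow_one N).symm
      _ ≤ N ^ q := pow_le_pow_right₀ hN (by omega)
  have hX1 : 1 ≤ X := hN.trans (hNN.trans hNX)
  have hNX' : N ≤ X := hNN.trans hNX
  have hY1 : 1 ≤ N ^ q := one_le_pow₀ hN
  have hPr : (1:ℝ) ≤ P := by exact_mod_cast hP
  set Y := N ^ q with hY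
  set Xf := N ^ (q - 2) * (P * X) with hXf
  have hXf1 : 1 ≤ Xf := by
    rw [hXf]
    have h1 : 1 ≤ N ^ (q - 2) := one_le_pow₀ hN
    have h2 : 1 ≤ (P:ℝ) * X := one_le_mul_of_one_le_of_one_le hPr hX1
    exact one_le_mul_of_one_le_of_one_le h1 h2
  have hXXf : X ≤ Xf := by
    rw [hXf]
    have h1 : 1 ≤ N ^ (q - 2) := one_le_pow₀ hN
    have h2 : X ≤ (P:ℝ) * X := by nlinarith
    calc X ≤ (P:ℝ) * X := h2
      _ ≤ N ^ (q - 2) * (P * X) := by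
          have : 0 ≤ (P:ℝ) * X := by positivity
          nlinarith
  have hYXf : Y ≤ Xf := hNX.trans hXXf
  -- the three functions
  set B := Bf q P N X with hB
  set C := cA P N κ with hC
  set A := cA P N (1 / 2) with hA
  have hBle : ∀ n : ℕ, (n:ℝ) ≤ Z → |B n| ≤ dv κ n ∧ (B n ≠ 0 → n.Coprime P) := fun n hn =>
    Bf_le q hq P N X n (hn.trans hZX)
  have hCle : ∀ n : ℕ, |C n| ≤ dv κ n ∧ (C n ≠ 0 → n.Coprime P) := by
    intro n
    have h1 := cA_nonneg P N hκ0 n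
    have h2 := cA_le P N hκ0 n
    refine ⟨?_, fun h => ?_⟩
    · rw [abs_of_nonneg h1]
      exact h2.trans (xA_le P hκ0 n)
    · apply xA_coprime (P := P) (α := κ)
      intro h0
      rw [h0] at h2
      exact h (le_antisymm h2 h1)
  have hAle : ∀ n : ℕ, |(A ^ q : ArithmeticFunction ℝ) n| ≤ dv κ n ∧
      ((A ^ q : ArithmeticFunction ℝ) n ≠ 0 → n.Coprime P) := by
    intro n
    have h1 := cA_pow_le P N (α := 1 / 2) (by norm_num) q n
    have e : (q:ℝ) * (1 / 2) = κ := by rw [hκdef]; ring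
    rw [e] at h1
    refine ⟨?_, fun h => ?_⟩
    · rw [abs_of_nonneg h1.1]
      exact h1.2.trans (xA_le P hκ0 n)
    · apply xA_coprime (P := P) (α := κ)
      intro h0
      rw [h0] at h1
      exact h (le_antisymm h1.2 h1.1)
  have hdK : ∀ n : ℕ, 1 ≤ n → dv κ n ≤ K * (n:ℝ) ^ (1 / 4 : ℝ) := fun n hn =>
    (dv_mono hκ0 (by linarith : κ ≤ κ + 1) n).trans (hK1 n hn)
  have hBK : ∀ n : ℕ, 1 ≤ n → |B n| ≤ K * (n:ℝ) ^ (1 / 4 : ℝ) := fun n hn =>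
    (Bf_abs q hq P N X n).trans (hK1 n hn)
  have hCK : ∀ n : ℕ, 1 ≤ n → |C n| ≤ K * (n:ℝ) ^ (1 / 4 : ℝ) := fun n hn => (hCle n).1.trans (hdK n hn)
  have hAK : ∀ n : ℕ, 1 ≤ n → |(A ^ q : ArithmeticFunction ℝ) n| ≤ K * (n:ℝ) ^ (1 / 4 : ℝ) := fun n hn =>
    (hAle n).1.trans (hdK n hn)
  -- l1 bounds
  have hlB : l1 B Xf ≤ Xf ^ (q + 3) := l1_PB (PB_Bf q P N X) hXf1
  have hDC : ∀ t : ℝ, Dp C Y (1 / 2 + t * Complex.I) = Dp C N (1 / 2 + t * Complex.I) := fun t =>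
    Dp_mono C N Y hNN (cA_supp P N κ) _
  have hlC : l1 C N ≤ N ^ (J + 1) := l1_PB (PB_cA P N hκ0 hJ) hN
  have hlCY : l1 C Y = l1 C N := by
    unfold l1
    have hsub : Icc 1 ⌊N⌋₊ ⊆ Icc 1 ⌊Y⌋₊ := Icc_subset_Icc_right (Nat.floor_le_floor hNN)
    symm
    refine sum_subset hsub fun n hn hn' => ?_
    rw [mem_Icc] at hn hn'
    have : ⌊N⌋₊ < n := by
      by_contra h
      exact hn' ⟨hn.1, by omega⟩
    rw [hC, cA_supp P N _ n (Nat.lt_of_floor_lt this), abs_zero]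
  have hlA : l1 A N ≤ N := by
    have := l1_PB (PB_cA_one P N (α := 1 / 2) (by norm_num) (by norm_num)) hN
    rw [zero_add, pow_one] at this
    exact this
  have hlM : l1 (muP P) P ≤ P := by
    have := l1_PB (PB_muP P) hPr
    rw [zero_add, pow_one] at this
    exact this
  have hlAq : l1 (A ^ q : ArithmeticFunction ℝ) Y ≤ Y ^ (q + J + 1) := by
    have h1 := l1_PB ((PB_cA_one P N (α := 1 / 2) (by norm_num) (by norm_num)).pow q) hY1
    refine h1.trans (pow_le_pow_right₀ hY1 (by simp))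
  have hlCY2 : l1 C Y ≤ Y ^ (q + J + 1) := by
    have h1 := l1_PB (PB_cA P N hκ0 hJ) hY1
    exact h1.trans (pow_le_pow_right₀ hY1 (by omega))
  set U := ∑ v ∈ Icc 1 ⌊Y⌋₊, dv κ v ^ 2 / v with hU
  have hU0 : 0 ≤ U := sum_nonneg fun v _ => by positivity
  have hgq := gq_nonneg (H / 2) ρ
  obtain ⟨b, hb⟩ : ∃ b : ℝ, b = (2 * (M:ℝ) + 1) * bd K Y W ρ Xf := ⟨_, rfl⟩
  rw [← hb]
  -- main term
  set G : ℝ → ℂ := fun t => Dp B Xf (1 / 2 + t * Complex.I) *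
      (starRingEnd ℂ) (Dp C Y (1 / 2 + t * Complex.I)) with hG
  have hmain : SP κ P ⌊N⌋₊ - ε * U - b - (CA α + 1) * (Xf ^ (q + 3) * N ^ (J + 1) * gq (H / 2) ρ) ≤
      ‖DS α t₀ τ H G‖ := by
    have h1 := disc_mean α t₀ τ H hα hH hκ P B C Xf Y Z ρ W K hY1 hYXf hρ hρ1 hWY hZ hρ2 hBle hCle hK hBK hCK
      M hM Γ hΓ0 hΓ ε hε
    rw [BC_sum q hq P N X Y hN hNX' hNN, ← hb] at h1
    have h2 : ‖((SP κ P ⌊N⌋₊ : ℝ) : ℂ)‖ = SP κ P ⌊N⌋₊ := by
      rw [Complex.norm_real, Real.norm_of_nonneg (SP_nonneg _ _ _)]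
    have h3 := norm_sub_norm_le ((SP κ P ⌊N⌋₊ : ℝ) : ℂ) (DS α t₀ τ H G)
    rw [h2, norm_sub_rev] at h3
    have h5 : (CA α + 1) * (l1 B Xf * l1 C Y * gq (H / 2) ρ) ≤
        (CA α + 1) * (Xf ^ (q + 3) * N ^ (J + 1) * gq (H / 2) ρ) := by
      have := l1_nonneg B Xf
      have := l1_nonneg C Y
      rw [hlCY]
      rw [hlCY] at this
      gcongr
    have h6 : ‖DS α t₀ τ H G - ((SP κ P ⌊N⌋₊ : ℝ) : ℂ)‖ ≤
      ε * U + b + (CA α + 1) * (l1 B Xf * l1 C Y * gq (H / 2) ρ) := h1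
    linarith
  have hDB : ∀ t : ℝ, ‖Dp B Xf (1 / 2 + t * Complex.I)‖ ≤ Xf ^ (q + 3) := fun t =>
    (Dp_line_norm _ _ _).trans hlB
  have hDCn : ∀ t : ℝ, ‖Dp C Y (1 / 2 + t * Complex.I)‖ ≤ N ^ (J + 1) := fun t => by
    rw [hDC]; exact (Dp_line_norm _ _ _).trans hlC
  have hDAn : ∀ t : ℝ, ‖Dp A N (1 / 2 + t * Complex.I)‖ ≤ N := fun t =>
    (Dp_line_norm _ _ _).trans hlA
  have hDMn : ∀ t : ℝ, ‖Dp (muP P) P (1 / 2 + t * Complex.I)‖ ≤ P := fun t =>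
    (Dp_line_norm _ _ _).trans hlM
  have hGn : ∀ t, ‖G t‖ ≤ Xf ^ (q + 3) * N ^ (J + 1) := by
    intro t
    rw [hG]
    simp only
    rw [norm_mul, RCLike.norm_conj]
    have a3 := hDB t
    have a4 := hDCn t
    gcongr
  -- splitting
  have hGw : ∀ t, ‖(if |t - τ| < R then G t else 0)‖ ≤ Xf ^ (q + 3) * N ^ (J + 1) := by
    intro t
    split_ifs
    · exact hGn t
    · rw [norm_zero]; positivity
  have hGo : ∀ t, ‖(if |t - τ| < R then 0 else G t)‖ ≤ Xf ^ (q + 3) * N ^ (J + 1) := by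
    intro t
    split_ifs
    · rw [norm_zero]; positivity
    · exact hGn t
  have hsplit : DS α t₀ τ H G = DS α t₀ τ H (fun t => if |t - τ| < R then G t else 0) +
      DS α t₀ τ H (fun t => if |t - τ| < R then 0 else G t) := by
    rw [← DS_add α t₀ τ H hα hH0 _ _ _ _ hGw hGo]
    congr 1
    funext t
    split_ifs <;> simp
  have hout := DS_out α t₀ τ H R hα (by linarith) hR G _ (by positivity) hGn
  -- replacing the truncated zeta function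
  have hDBe : ∀ t : ℝ, Dp B Xf (1 / 2 + t * Complex.I) =
      Dp A N (1 / 2 + t * Complex.I) ^ (q - 2) * (Dp (muP P) P (1 / 2 + t * Complex.I) * zX X t) := fun t =>
    Bf_Dp q P hP N X hN (by linarith) _
  set G' : ℝ → ℂ := fun t => (Dp A N (1 / 2 + t * Complex.I) ^ (q - 2) *
      (Dp (muP P) P (1 / 2 + t * Complex.I) * zl t)) *
      (starRingEnd ℂ) (Dp C Y (1 / 2 + t * Complex.I)) with hG'
  obtain ⟨Kz, hKz0, hKz⟩ := window_bdd (fun t => ‖zl t‖ ^ q) (zl_cont.norm.pow q) τ R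
  obtain ⟨Kz1, hKz10, hKz1⟩ := window_bdd (fun t => ‖zl t‖) zl_cont.norm τ R
  have hG'w : ∀ t, ‖(if |t - τ| < R then G' t else 0)‖ ≤ (N ^ (q - 2) * (P * Kz1)) * N ^ (J + 1) := by
    intro t
    split_ifs with h
    · rw [hG']
      simp only
      rw [norm_mul, norm_mul, norm_mul, norm_pow, RCLike.norm_conj]
      have a0 := hKz1 t
      rw [if_pos h, abs_of_nonneg (norm_nonneg _)] at a0
      have a3 := hDAn t
      have a4 := hDCn t
      have a5 := hDMn t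
      gcongr
    · rw [norm_zero]; positivity
  have hdiffn : ∀ t, ‖(if |t - τ| < R then G t else 0) - (if |t - τ| < R then G' t else 0)‖ ≤
      e₁ * (P * N ^ (q - 2) * N ^ (J + 1)) := by
    intro t
    split_ifs with h
    · have e1 : G t - G' t = (Dp A N (1 / 2 + t * Complex.I) ^ (q - 2) *
              (Dp (muP P) P (1 / 2 + t * Complex.I) * (zX X t - zl t))) *
              (starRingEnd ℂ) (Dp C Y (1 / 2 + t * Complex.I)) := by
        rw [hG, hG']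
        simp only
        rw [hDBe]
        ring
      rw [e1, norm_mul, norm_mul, norm_mul, RCLike.norm_conj, norm_pow]
      have b1 := happ t h
      rw [norm_sub_rev] at b1
      have a3 := hDAn t
      have a4 := hDCn t
      have a5 := hDMn t
      calc _ ≤ (N ^ (q - 2) * (P * e₁)) * N ^ (J + 1) := by gcongr
        _ = _ := by ring
    · rw [sub_zero, norm_zero]; positivity
  have happx : ‖DS α t₀ τ H (fun t => (if |t - τ| < R then G t else 0) - (if |t - τ| < R then G' t else 0))‖ ≤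
      e₁ * (P * N ^ (q - 2) * N ^ (J + 1)) * CA α := by
    refine (DS_norm_le_DR α t₀ τ H hα hH0 _ (fun _ => e₁ * (P * N ^ (q - 2) * N ^ (J + 1)))
      (e₁ * (P * N ^ (q - 2) * N ^ (J + 1))) (fun t => ?_) hdiffn).trans ?_
    · rw [abs_of_nonneg (by positivity)]
    · exact DR_const α t₀ τ H _ hα (by linarith) (by positivity)
  have hsplit2 : DS α t₀ τ H (fun t => if |t - τ| < R then G t else 0) =
      DS α t₀ τ H (fun t => if |t - τ| < R then G' t else 0) +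
      DS α t₀ τ H (fun t => (if |t - τ| < R then G t else 0) - (if |t - τ| < R then G' t else 0)) := by
    rw [← DS_add α t₀ τ H hα hH0 _ _ _ _ hG'w hdiffn]
    congr 1
    funext t
    ring
  -- Young
  set VA : ℝ → ℝ := fun t => ‖Dp (A ^ q : ArithmeticFunction ℝ) Y (1 / 2 + t * Complex.I)‖ ^ 2 with hVA
  set VC : ℝ → ℝ := fun t => ‖Dp C Y (1 / 2 + t * Complex.I)‖ ^ 2 with hVC
  have hA2 := disc_sq α t₀ τ H hα hH hκ P (A ^ q : ArithmeticFunction ℝ) Xf Y Z ρ W K hY1 hYXf hρ hρ1 hWY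
    hZ hρ2 hAle hK hAK M hM Γ hΓ0 hΓ ε hε
  have hC2 := disc_sq α t₀ τ H hα hH hκ P C Xf Y Z ρ W K hY1 hYXf hρ hρ1 hWY
    hZ hρ2 hCle hK hCK M hM Γ hΓ0 hΓ ε hε
  rw [← hb] at hA2 hC2
  have hDAq : ∀ t : ℝ, Dp (A ^ q : ArithmeticFunction ℝ) Y (1 / 2 + t * Complex.I) =
      Dp A N (1 / 2 + t * Complex.I) ^ q := fun t =>
    (Dp_pow A N hN (cA_supp P N (1 / 2)) (1 / 2 + t * Complex.I) q).2
  have hVAb : ∀ t, |VA t| ≤ (Y ^ (q + J + 1)) ^ 2 := by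
    intro t
    rw [hVA]
    simp only
    rw [abs_of_nonneg (by positivity)]
    have := (Dp_line_norm (A ^ q : ArithmeticFunction ℝ) Y t).trans hlAq
    gcongr
  have hVCb : ∀ t, |VC t| ≤ (Y ^ (q + J + 1)) ^ 2 := by
    intro t
    rw [hVC]
    simp only
    rw [abs_of_nonneg (by positivity)]
    have := (Dp_line_norm C Y t).trans hlCY2
    gcongr
  set ZW : ℝ → ℝ := fun t => if |t - τ| < R then ‖zl t‖ ^ q else 0 with hZW
  have hVACb : ∀ t, |VA t + VC t| ≤ (Y ^ (q + J + 1)) ^ 2 + (Y ^ (q + J + 1)) ^ 2 := fun t =>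
    (abs_add_le _ _).trans (add_le_add (hVAb t) (hVCb t))
  have hμACb : ∀ t, |μ * (VA t + VC t)| ≤ μ * ((Y ^ (q + J + 1)) ^ 2 + (Y ^ (q + J + 1)) ^ 2) := by
    intro t
    rw [abs_mul, abs_of_pos hμ]
    exact mul_le_mul_of_nonneg_left (hVACb t) hμ.le
  have hmu0 : 0 ≤ (μ⁻¹) ^ (q - 1) * (P:ℝ) ^ q := by positivity
  have hZb : ∀ t, |(μ⁻¹) ^ (q - 1) * P ^ q * ZW t| ≤ (μ⁻¹) ^ (q - 1) * P ^ q * Kz := by
    intro t
    rw [abs_mul, abs_of_nonneg hmu0]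
    exact mul_le_mul_of_nonneg_left (hKz t) hmu0
  have hG'b : ‖DS α t₀ τ H (fun t => if |t - τ| < R then G' t else 0)‖ ≤
      μ * (DR α t₀ τ H VA + DR α t₀ τ H VC) + (μ⁻¹) ^ (q - 1) * P ^ q * DR α t₀ τ H ZW := by
    have h1 := DS_norm_le_DR α t₀ τ H hα hH0 (fun t => if |t - τ| < R then G' t else 0)
      (fun t => μ * (VA t + VC t) + (μ⁻¹) ^ (q - 1) * P ^ q * ZW t) _ (fun t =>
        (abs_add_le _ _).trans (add_le_add (hμACb t) (hZb t))) (by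
        intro t
        have hVA0 : 0 ≤ VA t := by rw [hVA]; positivity
        have hVC0 : 0 ≤ VC t := by rw [hVC]; positivity
        by_cases h : |t - τ| < R
        · have hZWt : ZW t = ‖zl t‖ ^ q := by rw [hZW]; simp only; rw [if_pos h]
          rw [if_pos h, hZWt, hG', hVA, hVC]
          simp only
          rw [norm_mul, norm_mul, norm_mul, norm_pow, RCLike.norm_conj, hDAq, norm_pow]
          have a5 := hDMn t
          set x := ‖zl t‖ with hx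
          set y := ‖Dp A N (1 / 2 + t * Complex.I)‖ with hy
          set z := ‖Dp C Y (1 / 2 + t * Complex.I)‖ with hz
          set w := ‖Dp (muP P) P (1 / 2 + t * Complex.I)‖ with hw
          have hw0 : 0 ≤ w := norm_nonneg _
          have hx0 : 0 ≤ x := norm_nonneg _
          have hyo := young q hq (w * x) y z μ (by positivity) (norm_nonneg _) (norm_nonneg _) hμ
          have hpow : (w * x) ^ q ≤ P ^ q * x ^ q := by
            rw [mul_pow]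
            gcongr
          calc y ^ (q - 2) * (w * x) * z = (w * x) * y ^ (q - 2) * z := by ring
            _ ≤ μ * (y ^ (2 * q) + z ^ 2) + (μ⁻¹) ^ (q - 1) * (w * x) ^ q := hyo
            _ ≤ μ * (y ^ (2 * q) + z ^ 2) + (μ⁻¹) ^ (q - 1) * (P ^ q * x ^ q) := by gcongr
            _ = _ := by
                rw [← pow_mul, mul_comm q 2]
                ring
        · have hZWt : ZW t = 0 := by rw [hZW]; simp only; rw [if_neg h]
          rw [if_neg h, norm_zero, hZWt]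
          positivity)
    rw [DR_add α t₀ τ H hα hH0 (fun t => μ * (VA t + VC t)) (fun t => (μ⁻¹) ^ (q - 1) * P ^ q * ZW t) _ _
      hμACb hZb, DR_smul, DR_smul, DR_add α t₀ τ H hα hH0 VA VC _ _ hVAb hVCb] at h1
    exact h1
  -- conclusion
  have hAb : DR α t₀ τ H VA ≤ (1 + ε) * U + b + (CA α + 1) * (Y ^ (2 * (q + J + 1)) * gq (H / 2) ρ) := by
    refine hA2.trans (add_le_add le_rfl ?_)
    have h1 : l1 (A ^ q : ArithmeticFunction ℝ) Y * l1 (A ^ q : ArithmeticFunction ℝ) Y ≤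
        Y ^ (2 * (q + J + 1)) := by
      rw [two_mul, pow_add]
      exact mul_le_mul hlAq hlAq (l1_nonneg _ _) (by positivity)
    gcongr
  have hCb : DR α t₀ τ H VC ≤ (1 + ε) * U + b + (CA α + 1) * (Y ^ (2 * (q + J + 1)) * gq (H / 2) ρ) := by
    refine hC2.trans (add_le_add le_rfl ?_)
    have h1 : l1 C Y * l1 C Y ≤ Y ^ (2 * (q + J + 1)) := by
      rw [two_mul, pow_add]
      exact mul_le_mul hlCY2 hlCY2 (l1_nonneg _ _) (by positivity)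
    gcongr
  have hfin1 : μ * (DR α t₀ τ H VA + DR α t₀ τ H VC) ≤ μ * (2 * (1 + ε) * U + 2 * b +
        2 * ((CA α + 1) * (Y ^ (2 * (q + J + 1)) * gq (H / 2) ρ))) := by
    refine mul_le_mul_of_nonneg_left ?_ hμ.le
    linarith
  have htri : ‖DS α t₀ τ H G‖ ≤ ‖DS α t₀ τ H (fun t => if |t - τ| < R then G' t else 0)‖ +
      ‖DS α t₀ τ H (fun t => (if |t - τ| < R then G t else 0) - (if |t - τ| < R then G' t else 0))‖ +
      ‖DS α t₀ τ H (fun t => if |t - τ| < R then 0 else G t)‖ := by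
    rw [hsplit, hsplit2]
    refine (norm_add_le _ _).trans (add_le_add ?_ le_rfl)
    exact norm_add_le _ _
  linarith

end

end Pool.Agent.U615.EP
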