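import Pool.Agent.U615.EP.F
import Pool.Agent.R311.BS.WE

set_option autoImplicit false

/-! Near pairs for all frequencies. -/

namespace Pool.Agent.U615.EP

open Finset MeasureTheory Filter Topology
open Pool.Agent.H306R2 Pool.Agent.R311.BS

noncomputable section

def be (α : ℝ) : Fin 1 → ℝ := fun _ => 1 / α

lemma th_be (α : ℝ) (m : Fin 1 → ℤ) : th (be α) m = om α (m 0) := by
  unfold th om be
  simp
  ring

lemma be_indep (α : ℝ) (hα : 0 < α) (m : Fin 1 → ℤ) (h : th (be α) m = 0) : m = 0 := by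
  rw [th_be] at h
  unfold om at h
  have h1 : 2 * Real.pi * (m 0 : ℝ) / α = 0 := h
  rw [div_eq_zero_iff] at h1
  rcases h1 with h1 | h1
  · rcases mul_eq_zero.mp h1 with h2 | h2
    · have := Real.pi_pos
      linarith
    · funext i
      rw [Subsingleton.elim i 0]
      exact_mod_cast h2
  · linarith

lemma exp_tail_summable (c : ℝ) (hc : 0 < c) : Summable fun m : ℤ => Real.exp (-(c * |(m:ℝ)|)) := by
  have h1 : Summable fun m : ℤ => (1 + 2 / c ^ 2) * lam m := lam_summable.mul_left _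
  refine Summable.of_nonneg_of_le (fun m => (Real.exp_pos _).le) (fun m => ?_) h1
  unfold lam
  split_ifs with h
  · subst h
    have : 0 ≤ 2 / c ^ 2 := by positivity
    simp
    linarith
  · have hm : (m:ℝ) ≠ 0 := by exact_mod_cast h
    have hx : 0 < c * |(m:ℝ)| := by positivity
    have h2 : (c * |(m:ℝ)|) ^ 2 / 2 ≤ Real.exp (c * |(m:ℝ)|) := by
      have := Real.quadratic_le_exp_of_nonneg hx.le
      linarith
    rw [Real.exp_neg]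
    have h3 : (Real.exp (c * |(m:ℝ)|))⁻¹ ≤ ((c * |(m:ℝ)|) ^ 2 / 2)⁻¹ := inv_anti₀ (by positivity) h2
    refine h3.trans ?_
    have h4 : ((c * |(m:ℝ)|) ^ 2 / 2)⁻¹ = 2 / c ^ 2 * (1 / (m:ℝ) ^ 2) := by
      rw [mul_pow, sq_abs]
      field_simp
    rw [h4]
    have h5 : 0 < 1 / (m:ℝ) ^ 2 := by positivity
    nlinarith

lemma far_pair {κ : ℝ} (hκ : 0 ≤ κ) (K : ℝ) (hK : 1 ≤ K)
    (hK1 : ∀ n : ℕ, 1 ≤ n → dv κ n ≤ K * (n:ℝ) ^ (1 / 4 : ℝ)) (ω : ℝ) (a b : ℕ) (ha : 1 ≤ a) (hb : 1 ≤ b)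
    (h : |ω - Real.log a + Real.log b| < 1) :
    dv κ a * dv κ b * (Real.sqrt a)⁻¹ * (Real.sqrt b)⁻¹ ≤ 2 * K ^ 2 * Real.exp (-(1 / 4 * |ω|)) := by
  have ha0 : (0:ℝ) < a := by exact_mod_cast ha
  have hb0 : (0:ℝ) < b := by exact_mod_cast hb
  have hla : 0 ≤ Real.log a := Real.log_nonneg (by exact_mod_cast ha)
  have hlb : 0 ≤ Real.log b := Real.log_nonneg (by exact_mod_cast hb)
  have h1 : |ω| ≤ Real.log a + Real.log b + 1 := by
    rw [abs_lt] at h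
    rw [abs_le]
    constructor <;> linarith [h.1, h.2]
  have hs : ∀ n : ℕ, 1 ≤ n → dv κ n * (Real.sqrt n)⁻¹ ≤ K * Real.exp (-(1 / 4 * Real.log n)) := by
    intro n hn
    have hn0 : (0:ℝ) < n := by exact_mod_cast hn
    have e1 : (Real.sqrt n)⁻¹ = (n:ℝ) ^ (-(1 / 2) : ℝ) := by
      rw [Real.sqrt_eq_rpow, ← Real.rpow_neg hn0.le]
    have e2 : (n:ℝ) ^ (1 / 4 : ℝ) * (n:ℝ) ^ (-(1 / 2) : ℝ) = Real.exp (-(1 / 4 * Real.log n)) := by
      rw [← Real.rpow_add hn0, Real.rpow_def_of_pos hn0]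
      congr 1
      ring
    rw [e1, ← e2, ← mul_assoc]
    exact mul_le_mul_of_nonneg_right (hK1 n hn) (by positivity)
  have e0 : dv κ a * dv κ b * (Real.sqrt a)⁻¹ * (Real.sqrt b)⁻¹ =
      (dv κ a * (Real.sqrt a)⁻¹) * (dv κ b * (Real.sqrt b)⁻¹) := by ring
  rw [e0]
  have hnn : ∀ n : ℕ, 0 ≤ dv κ n * (Real.sqrt n)⁻¹ := fun n => mul_nonneg (dv_nonneg hκ n) (by positivity)
  have he : Real.exp (1 / 4 : ℝ) ≤ 2 := by
    have h2 : Real.exp (1 / 4 : ℝ) ≤ 1 / (1 - 1 / 4) := Real.exp_bound_div_one_sub_of_interval (by norm_num) (by norm_num)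
    norm_num at h2 ⊢
    linarith
  calc (dv κ a * (Real.sqrt a)⁻¹) * (dv κ b * (Real.sqrt b)⁻¹) ≤
      (K * Real.exp (-(1 / 4 * Real.log a))) * (K * Real.exp (-(1 / 4 * Real.log b))) :=
        mul_le_mul (hs a ha) (hs b hb) (hnn b) (by positivity)
    _ = K ^ 2 * Real.exp (-(1 / 4 * (Real.log a + Real.log b))) := by
        rw [mul_mul_mul_comm, ← Real.exp_add]
        ring_nf
    _ ≤ K ^ 2 * Real.exp (1 / 4 + -(1 / 4 * |ω|)) := by
        gcongr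
        linarith
    _ = K ^ 2 * (Real.exp (1 / 4) * Real.exp (-(1 / 4 * |ω|))) := by rw [Real.exp_add]
    _ ≤ K ^ 2 * (2 * Real.exp (-(1 / 4 * |ω|))) := by gcongr
    _ = _ := by ring

lemma abs_om (α : ℝ) (hα : 0 < α) (m : ℤ) : 1 / 4 * |om α m| = Real.pi / (2 * α) * |(m:ℝ)| := by
  unfold om
  rw [abs_div, abs_mul, abs_mul, abs_of_pos hα, abs_of_pos Real.pi_pos, abs_of_pos (by norm_num : (0:ℝ) < 2)]
  field_simp
  ring

theorem gamma_exists {κ : ℝ} (hκ : 0 ≤ κ) (α : ℝ) (hα : 0 < α) (P : ℕ)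
    (hP : ∀ (m : Fin 1 → ℤ) (a b : ℕ), 1 ≤ a → 1 ≤ b → a.Coprime b → a.Coprime P →
      b.Coprime P → th (be α) m - Real.log a + Real.log b = 0 → a = 1 ∧ b = 1)
    (K : ℝ) (hK : 1 ≤ K) (hK1 : ∀ n : ℕ, 1 ≤ n → dv κ n ≤ K * (n:ℝ) ^ (1 / 4 : ℝ)) (ε : ℝ) (hε : 0 < ε) :
    ∃ Γ : ℤ → ℝ, (∀ m, 0 ≤ Γ m) ∧ (∀ M : ℕ, ∑ m ∈ (Icc (-(M:ℤ)) M).erase 0, Γ m ≤ ε) ∧
      ∀ᶠ ρ : ℝ in 𝓝[>] 0, ∀ m : ℤ, m ≠ 0 → ∀ a b : ℕ, 1 ≤ a → 1 ≤ b → a.Coprime b →
        a.Coprime P → b.Coprime P → |om α m - Real.log a + Real.log b| < ρ →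
        dv κ a * dv κ b * (Real.sqrt a)⁻¹ * (Real.sqrt b)⁻¹ ≤ Γ m := by
  classical
  obtain ⟨K', hK', hK1', hK2'⟩ := dv_decay hκ
  obtain ⟨c, hc⟩ : ∃ c : ℝ, c = Real.pi / (2 * α) := ⟨_, rfl⟩
  have hc0 : 0 < c := by rw [hc]; have := Real.pi_pos; positivity
  have hs := ((exp_tail_summable c hc0).mul_left (2 * K ^ 2))
  rw [summable_iff_vanishing_norm] at hs
  obtain ⟨s, hs⟩ := hs (ε / 2) (by positivity)
  obtain ⟨M₀, hM₀⟩ : ∃ M₀ : ℕ, M₀ = s.sup Int.natAbs := ⟨_, rfl⟩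
  obtain ⟨ε₁, hε₁⟩ : ∃ ε₁ : ℝ, ε₁ = ε / (2 * (2 * M₀ + 1)) := ⟨_, rfl⟩
  have hε₁0 : 0 < ε₁ := by rw [hε₁]; positivity
  have hnear := near_small hκ (be α) (be_indep α hα) P hP K' hK' hK1' hK2' M₀ ε₁ hε₁0
  refine ⟨fun m => if m ∈ Icc (-(M₀:ℤ)) M₀ then ε₁ else 2 * K ^ 2 * Real.exp (-(c * |(m:ℝ)|)), ?_, ?_, ?_⟩
  · intro m
    simp only
    split_ifs <;> positivity
  · intro M
    rw [sum_ite]
    have h1 : ∑ m ∈ ((Icc (-(M:ℤ)) M).erase 0).filter (fun m => m ∈ Icc (-(M₀:ℤ)) M₀), ε₁ ≤ ε / 2 := by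
      rw [sum_const, nsmul_eq_mul]
      have h2 : (((Icc (-(M:ℤ)) M).erase 0).filter (fun m => m ∈ Icc (-(M₀:ℤ)) M₀)).card ≤ 2 * M₀ + 1 := by
        refine (card_le_card (t := Icc (-(M₀:ℤ)) M₀) fun m hm => (mem_filter.mp hm).2).trans ?_
        rw [Int.card_Icc]
        omega
      have h3 : ((((Icc (-(M:ℤ)) M).erase 0).filter (fun m => m ∈ Icc (-(M₀:ℤ)) M₀)).card : ℝ) ≤ 2 * M₀ + 1 := by
        exact_mod_cast h2
      calc _ ≤ (2 * (M₀:ℝ) + 1) * ε₁ := by gcongr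
        _ = ε / 2 := by rw [hε₁]; field_simp
    have h2 := hs (((Icc (-(M:ℤ)) M).erase 0).filter (fun m => ¬ m ∈ Icc (-(M₀:ℤ)) M₀)) (by
      rw [disjoint_left]
      intro m hm hms
      apply (mem_filter.mp hm).2
      have h3 : m.natAbs ≤ M₀ := by
        rw [hM₀]
        exact le_sup (f := Int.natAbs) hms
      rw [mem_Icc]
      omega)
    have h3 := (le_abs_self _).trans h2.le
    linarith
  · have h1 : ∀ᶠ ρ : ℝ in 𝓝[>] 0, ρ < 1 := by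
      have := Ioo_mem_nhdsGT (show (0:ℝ) < 1 from one_pos)
      filter_upwards [this] with ρ hρ using hρ.2
    filter_upwards [hnear, h1] with ρ hρ hρ1 m hm a b ha hb hab haP hbP hlt
    split_ifs with h
    · refine hρ (fun _ => m) ?_ ?_ a b ha hb hab haP hbP ?_
      · unfold bx
        rw [Fintype.mem_piFinset]
        intro _
        exact h
      · intro h0
        exact hm (congrFun h0 0)
      · rw [th_be]
        exact hlt
    · have h2 := far_pair hκ K hK hK1 (om α m) a b ha hb (hlt.trans hρ1)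
      rw [abs_om α hα m, ← hc] at h2
      exact h2

end

end Pool.Agent.U615.EP
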