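import Pool.Agent.U615.EP.G

set_option autoImplicit false

/-! Choice of the parameters. -/

namespace Pool.Agent.U615.EP

open Finset MeasureTheory Filter Topology
open Pool.Agent.H306R2 Pool.Agent.R311.BS

noncomputable section

lemma fin_arith' {A B e1 e2 e3 e4 m e5 e6 G : ℝ} (h : A - B - e1 - e2 - e3 - e4 ≤ m + e5 + e6 + G)
    (hB : B ≤ A / 4) (h1 : e1 ≤ 1) (h2 : e2 ≤ 1) (h3 : e3 ≤ 1) (h4 : e4 ≤ 1) (h5 : e5 ≤ 1) (h6 : e6 ≤ 1)
    (hm : m ≤ A / 4) (hA : 24 ≤ A) : A / 4 ≤ G := by linarith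

/-- the error from the far frequencies -/
lemma far_error {α K P : ℝ} (hα : 0 < α) (hK : 1 ≤ K) (hP : 1 ≤ P) {T Y W ρ Xf : ℝ} (hT : 1 ≤ T)
    (hY0 : 0 ≤ Y) (hY : Y ≤ T ^ (1 / 64 : ℝ)) (hW : W = 1 / 2 * Real.log T) (hρ : ρ = T ^ (-(31 / 32) : ℝ))
    (hXf1 : 1 ≤ Xf) (hXf : Xf ≤ 10 * P * T ^ (65 / 64 : ℝ)) :
    (2 * (⌈α * (Real.log Xf + 1) / (2 * Real.pi)⌉₊ : ℝ) + 1) * bd K Y W ρ Xf ≤
      (3 + α * (10 * P + 65 + 1)) * (K ^ 2 * (2 + 30 * (10 * P))) * T ^ (-(1 / 16) : ℝ) := by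
  have hT0 : 0 < T := by linarith
  have hlog0 : 0 ≤ Real.log T := Real.log_nonneg hT
  obtain ⟨u, hu⟩ : ∃ u : ℝ, u = T ^ (1 / 64 : ℝ) := ⟨_, rfl⟩
  have hu1 : 1 ≤ u := by rw [hu]; exact Real.one_le_rpow hT (by norm_num)
  have hlogT : Real.log T ≤ 64 * u := by
    have := Real.log_le_rpow_div hT0.le (show (0:ℝ) < 1 / 64 by norm_num)
    rw [← hu] at this
    linarith
  have hlogXf0 : 0 ≤ Real.log Xf := Real.log_nonneg hXf1
  have hlogXf : Real.log Xf ≤ (10 * P + 65) * u := by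
    have h1 : Real.log Xf ≤ Real.log (10 * P * T ^ (65 / 64 : ℝ)) := Real.log_le_log (by linarith) hXf
    have h2 : Real.log (10 * P * T ^ (65 / 64 : ℝ)) = Real.log (10 * P) + 65 / 64 * Real.log T := by
      rw [Real.log_mul (by positivity) (by positivity), Real.log_rpow hT0]
    have h3 : Real.log (10 * P) ≤ 10 * P := (Real.log_le_sub_one_of_pos (by positivity)).trans (by linarith)
    have h4 : 10 * P ≤ 10 * P * u := by nlinarith
    rw [h2] at h1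
    linarith
  have hpi := Real.pi_gt_three
  have hM : (2 * (⌈α * (Real.log Xf + 1) / (2 * Real.pi)⌉₊ : ℝ) + 1) ≤ (3 + α * (10 * P + 65 + 1)) * u := by
    have h1 := (Nat.ceil_lt_add_one (a := α * (Real.log Xf + 1) / (2 * Real.pi)) (by positivity)).le
    have h2 : α * (Real.log Xf + 1) / (2 * Real.pi) ≤ α * (Real.log Xf + 1) / 2 := by
      apply div_le_div_of_nonneg_left (by positivity) (by norm_num)
      linarith
    have h3 : α * (Real.log Xf + 1) ≤ α * ((10 * P + 65 + 1) * u) := by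
      refine mul_le_mul_of_nonneg_left ?_ hα.le
      linarith
    calc (2 * (⌈α * (Real.log Xf + 1) / (2 * Real.pi)⌉₊ : ℝ) + 1) ≤
        2 * (α * (Real.log Xf + 1) / 2 + 1) + 1 := by linarith
      _ = α * (Real.log Xf + 1) + 3 := by ring
      _ ≤ α * ((10 * P + 65 + 1) * u) + 3 * u := by linarith
      _ = _ := by ring
  have e1 : Real.exp (-(W / 4)) = T ^ (-(1 / 8) : ℝ) := by
    rw [Real.rpow_def_of_pos hT0, hW]
    congr 1
    ring
  have e2 : ρ * Xf ^ (3 / 4 : ℝ) ≤ 10 * P * T ^ (-(1 / 8) : ℝ) := by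
    have h1 : Xf ^ (3 / 4 : ℝ) ≤ (10 * P * T ^ (65 / 64 : ℝ)) ^ (3 / 4 : ℝ) :=
      Real.rpow_le_rpow (by linarith) hXf (by norm_num)
    have h2 : (10 * P * T ^ (65 / 64 : ℝ)) ^ (3 / 4 : ℝ) ≤ 10 * P * T ^ (195 / 256 : ℝ) := by
      rw [Real.mul_rpow (by positivity) (by positivity), ← Real.rpow_mul hT0.le]
      norm_num
      refine mul_le_mul_of_nonneg_right ?_ (by positivity)
      calc (10 * P) ^ (3 / 4 : ℝ) ≤ (10 * P) ^ (1:ℝ) :=
            Real.rpow_le_rpow_of_exponent_le (by linarith) (by norm_num)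
        _ = 10 * P := Real.rpow_one _
    calc ρ * Xf ^ (3 / 4 : ℝ) ≤ T ^ (-(31 / 32) : ℝ) * (10 * P * T ^ (195 / 256 : ℝ)) := by
          rw [hρ]
          refine mul_le_mul_of_nonneg_left (h1.trans h2) (by positivity)
      _ = 10 * P * (T ^ (-(31 / 32) : ℝ) * T ^ (195 / 256 : ℝ)) := by ring
      _ = 10 * P * T ^ (-(53 / 256) : ℝ) := by
          rw [← Real.rpow_add hT0]; norm_num
      _ ≤ 10 * P * T ^ (-(1 / 8) : ℝ) := by
          refine mul_le_mul_of_nonneg_left ?_ (by positivity)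
          exact Real.rpow_le_rpow_of_exponent_le hT (by norm_num)
  have hbd : bd K Y W ρ Xf ≤ (K ^ 2 * (2 + 30 * (10 * P))) * (u ^ 2 * T ^ (-(1 / 8) : ℝ)) := by
    unfold bd
    rw [e1]
    calc K ^ 2 * Y ^ 2 * (2 * T ^ (-(1 / 8) : ℝ) + 30 * ρ * Xf ^ (3 / 4 : ℝ)) ≤
        K ^ 2 * u ^ 2 * (2 * T ^ (-(1 / 8) : ℝ) + 30 * (10 * P * T ^ (-(1 / 8) : ℝ))) := by
          rw [← hu] at hY
          have h5 : 0 ≤ ρ * Xf ^ (3 / 4 : ℝ) := by rw [hρ]; positivity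
          have h6 : 30 * ρ * Xf ^ (3 / 4 : ℝ) ≤ 30 * (10 * P * T ^ (-(1 / 8) : ℝ)) := by
            rw [mul_assoc]
            exact mul_le_mul_of_nonneg_left e2 (by norm_num)
          have h7 : 0 ≤ 2 * T ^ (-(1 / 8) : ℝ) + 30 * ρ * Xf ^ (3 / 4 : ℝ) := by
            rw [mul_assoc]; positivity
          gcongr
      _ = _ := by ring
  have hk : u * (u ^ 2 * T ^ (-(1 / 8) : ℝ)) ≤ T ^ (-(1 / 16) : ℝ) := by
    rw [hu, ← Real.rpow_natCast, ← Real.rpow_mul hT0.le, ← Real.rpow_add hT0, ← Real.rpow_add hT0]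
    apply Real.rpow_le_rpow_of_exponent_le hT
    norm_num
  have hbd0 : 0 ≤ bd K Y W ρ Xf := bd_nonneg (by rw [hρ]; positivity) (by linarith)
  calc _ ≤ ((3 + α * (10 * P + 65 + 1)) * u) * ((K ^ 2 * (2 + 30 * (10 * P))) * (u ^ 2 * T ^ (-(1 / 8) : ℝ))) := by
        gcongr
    _ = (3 + α * (10 * P + 65 + 1)) * (K ^ 2 * (2 + 30 * (10 * P))) * (u * (u ^ 2 * T ^ (-(1 / 8) : ℝ))) := by ring
    _ ≤ _ := by gcongr

end

end Pool.Agent.U615.EP
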