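import Pool.Agent.U615.EP.Hh

set_option autoImplicit false

/-! The lower bound for one window. -/

namespace Pool.Agent.U615.EP

open Finset MeasureTheory Filter Topology
open Pool.Agent.H306R2 Pool.Agent.R311.BS

noncomputable section

set_option maxHeartbeats 4000000 in
theorem window_bound (q : ℕ) (hq : 2 ≤ q) (α : ℝ) (hα : 0 < α) :
    ∃ c : ℝ, 0 < c ∧ ∀ᶠ T : ℝ in atTop, ∀ τ : ℝ, T ≤ τ → τ ≤ 3 * T →
      ∀ t₀ : ℝ, c * Real.log T ^ (((q:ℝ) / 2) ^ 2) ≤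
        DR α t₀ τ (T ^ (1 - 1 / 64 : ℝ)) (fun t => if |t - τ| < T ^ (1 - 1 / 128 : ℝ) then ‖zl t‖ ^ q else 0) := by
  obtain ⟨κ, hκdef⟩ : ∃ κ : ℝ, κ = (q:ℝ) / 2 := ⟨_, rfl⟩
  have hqr : (2:ℝ) ≤ q := by exact_mod_cast hq
  have hκ : 1 ≤ κ := by rw [hκdef]; linarith
  have hκ0 : 0 ≤ κ := by linarith
  obtain ⟨J, hJ⟩ := exists_nat_ge κ
  obtain ⟨s, hs, hbad⟩ := bad_primes (be α)
  obtain ⟨P, hPdef⟩ : ∃ P : ℕ, P = ∏ p ∈ s, p := ⟨_, rfl⟩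
  rw [← hPdef] at hbad
  have hP : 1 ≤ P := by
    rw [hPdef]
    exact Nat.pos_of_ne_zero (prod_ne_zero_iff.mpr fun p hp => (hs p hp).ne_zero)
  have hPr : (1:ℝ) ≤ P := by exact_mod_cast hP
  obtain ⟨K, hK, hK1⟩ := dv_quarter (κ := κ + 1) (by linarith)
  have hK1' : ∀ n : ℕ, 1 ≤ n → dv κ n ≤ K * (n:ℝ) ^ (1 / 4 : ℝ) := fun n hn =>
    (dv_mono hκ0 (by linarith : κ ≤ κ + 1) n).trans (hK1 n hn)
  obtain ⟨cS, hcS, hSev⟩ := SP_lower hκ s hs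
  rw [← hPdef] at hSev
  obtain ⟨CU, hCU, hUev⟩ := U_upper (κ := κ) (by linarith)
  have hCA := CA_ge_one α hα
  obtain ⟨c₂, hc₂⟩ : ∃ c₂ : ℝ, c₂ = cS / (CU * (q:ℝ) ^ (κ ^ 2)) := ⟨_, rfl⟩
  have hqpos : (0:ℝ) < (q:ℝ) ^ (κ ^ 2) := by positivity
  have hc₂pos : 0 < c₂ := by rw [hc₂]; positivity
  obtain ⟨ε, hεdef⟩ : ∃ ε : ℝ, ε = c₂ / 4 := ⟨_, rfl⟩
  have hεpos : 0 < ε := by rw [hεdef]; positivity
  obtain ⟨μ, hμdef⟩ : ∃ μ : ℝ, μ = c₂ / (8 * (1 + ε)) := ⟨_, rfl⟩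
  have hμpos : 0 < μ := by rw [hμdef]; positivity
  obtain ⟨Γ, hΓ0, hΓsum, hΓnear⟩ := gamma_exists hκ0 α hα P hbad K hK hK1' ε hεpos
  -- the exponents
  obtain ⟨a, ha⟩ : ∃ a : ℝ, a = 1 / 64 := ⟨_, rfl⟩
  have hapos : 0 < a := by rw [ha]; norm_num
  obtain ⟨ν, hν⟩ : ∃ ν : ℝ, ν = a / (q + J + 2) := ⟨_, rfl⟩
  have hJ0 : (0:ℝ) ≤ J := Nat.cast_nonneg J
  have hνpos : 0 < ν := by rw [hν]; positivity
  have hνsum : ν * (q + J + 2) = a := by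
    rw [hν]; field_simp
  -- constants for the errors
  obtain ⟨C3, hC3⟩ : ∃ C3 : ℝ, C3 = (3 + α * (10 * P + 65 + 1)) * (K ^ 2 * (2 + 30 * (10 * P))) := ⟨_, rfl⟩
  have hconst : 0 < (1 / 4) * cS * ν ^ (κ ^ 2) / ((μ⁻¹) ^ (q - 1) * P ^ q) := by positivity
  refine ⟨(1 / 4) * cS * ν ^ (κ ^ 2) / ((μ⁻¹) ^ (q - 1) * P ^ q), hconst, ?_⟩
  -- eventual facts
  have ev1 : ∀ᶠ T : ℝ in atTop, cS * (ν * Real.log T) ^ (κ ^ 2) ≤ SP κ P ⌊T ^ ν⌋₊ := by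
    have h1 : Tendsto (fun T : ℝ => ν * Real.log T) atTop atTop :=
      Real.tendsto_log_atTop.const_mul_atTop hνpos
    filter_upwards [h1.eventually hSev, eventually_gt_atTop 0] with T hT hT0
    rw [Real.rpow_def_of_pos hT0, mul_comm (Real.log T)]
    exact hT
  have ev2 : ∀ᶠ T : ℝ in atTop, ∑ v ∈ Icc 1 ⌊(T ^ ν) ^ q⌋₊, dv κ v ^ 2 / v ≤
      CU * ((q:ℝ) ^ (κ ^ 2) * (ν * Real.log T) ^ (κ ^ 2)) := by
    have h1 : Tendsto (fun T : ℝ => (q * ν) * Real.log T) atTop atTop :=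
      Real.tendsto_log_atTop.const_mul_atTop (by positivity)
    filter_upwards [h1.eventually hUev, eventually_gt_atTop 1] with T hT hT1
    have hT0 : 0 < T := by linarith
    have hlog : 0 < Real.log T := Real.log_pos hT1
    have e1 : (T ^ ν) ^ q = Real.exp ((q * ν) * Real.log T) := by
      rw [← Real.rpow_natCast, ← Real.rpow_mul hT0.le, Real.rpow_def_of_pos hT0]
      congr 1; ring
    rw [e1, ← Real.mul_rpow (by positivity) (by positivity), ← mul_assoc (q:ℝ)]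
    exact hT
  have ev3 : ∀ᶠ T : ℝ in atTop, ∀ m : ℤ, m ≠ 0 → ∀ a b : ℕ, 1 ≤ a → 1 ≤ b → a.Coprime b →
      a.Coprime P → b.Coprime P → |om α m - Real.log a + Real.log b| < T ^ (-(31 / 32) : ℝ) →
      dv κ a * dv κ b * (Real.sqrt a)⁻¹ * (Real.sqrt b)⁻¹ ≤ Γ m := by
    have h1 : Tendsto (fun T : ℝ => T ^ (-(31 / 32) : ℝ)) atTop (𝓝[>] 0) := by
      rw [tendsto_nhdsWithin_iff]
      refine ⟨tendsto_rpow_neg_atTop (by norm_num), ?_⟩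
      filter_upwards [eventually_gt_atTop 0] with T hT
      exact Real.rpow_pos_of_pos hT _
    exact h1.eventually hΓnear
  have ev4 := ev_small ((q - 1) * (q + 3) + (J + 1)) (1 / 16) (1 / 32) ((CA α + 1) * (10 * P) ^ (q + 3))
    (by norm_num) (by norm_num)
  have ev5 := ev_small ((q - 1) * (q + 3) + (J + 1)) (1 / 2) (1 / 64) (2 * CA α * (10 * P) ^ (q + 3))
    (by norm_num) (by norm_num)
  have ev6 := ev_small (q * (2 * (q + J + 1))) (1 / 16) (1 / 32) (2 * (CA α + 1) * μ)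
    (by norm_num) (by norm_num)
  have ev7 := ev_pow C3 (1 / 16) (by norm_num)
  have ev7' := ev_pow (2 * μ * C3) (1 / 16) (by norm_num)
  have ev8 := ev_pow ((1575 * Real.sqrt 2) * P * CA α) (1 / 2 - 1 / 64) (by norm_num)
  have ev9 := ev_rpow_ge 6 (7 / 16) (by norm_num)
  have ev10 := ev_rpow_ge 4 (1 / 128) (by norm_num)
  have ev11 : ∀ᶠ T : ℝ in atTop, 1 ≤ 31 / 64 * Real.log T :=
    (Real.tendsto_log_atTop.const_mul_atTop (by norm_num)).eventually (eventually_ge_atTop 1)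
  have ev12 := ev_log_rpow_ge 24 (cS * ν ^ (κ ^ 2)) (κ ^ 2) (by positivity) (by positivity)
  filter_upwards [ev1, ev2, ev3, ev4, ev5, ev6, ev7, ev7', ev8, ev9, ev10, ev11, ev12,
    eventually_ge_atTop 10] with T h1 h2 h3 h4 h5 h6 h7 h7' h8 h9 h10 h11 h12 hT τ hτ1 hτ2 t₀
  have hT0 : 0 < T := by linarith
  have hT1 : 1 ≤ T := by linarith
  have hlog : 0 < Real.log T := Real.log_pos (by linarith)
  obtain ⟨N, hNdef⟩ : ∃ N : ℝ, N = T ^ ν := ⟨_, rfl⟩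
  have hN1 : 1 ≤ N := by rw [hNdef]; exact Real.one_le_rpow hT1 hνpos.le
  obtain ⟨X₀, hX₀⟩ : ∃ X₀ : ℕ, X₀ = ⌈3 * τ⌉₊ := ⟨_, rfl⟩
  have hX3 : 3 * τ ≤ X₀ := by rw [hX₀]; exact Nat.le_ceil _
  have hX4 : (X₀:ℝ) ≤ 3 * τ + 1 := by
    rw [hX₀]
    exact (Nat.ceil_lt_add_one (by linarith)).le
  have hXT : (X₀:ℝ) ≤ 10 * T := by linarith
  have hX1 : (1:ℝ) ≤ X₀ := by linarith
  have hTa1 : 1 ≤ T ^ a := Real.one_le_rpow hT1 hapos.le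
  have hTaT : T ^ a ≤ T := by
    calc T ^ a ≤ T ^ (1:ℝ) := Real.rpow_le_rpow_of_exponent_le hT1 (by rw [ha]; norm_num)
      _ = T := Real.rpow_one T
  have hpowN : ∀ k : ℕ, (k:ℝ) ≤ q + J + 2 → N ^ k ≤ T ^ a := by
    intro k hk
    rw [hNdef, ← Real.rpow_natCast, ← Real.rpow_mul hT0.le, ← hνsum]
    apply Real.rpow_le_rpow_of_exponent_le hT1
    gcongr
  have hNq : N ^ q ≤ T ^ a := hpowN q (by linarith)
  have hNq1 : 1 ≤ N ^ q := one_le_pow₀ hN1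
  have hNT : N ≤ T := by
    have h := hpowN 1 (by push_cast; linarith)
    rw [pow_one] at h
    exact h.trans hTaT
  have hNJ : N ^ (q - 2) * N ^ (J + 1) ≤ T ^ a := by
    rw [← pow_add]
    apply hpowN
    push_cast [Nat.cast_sub hq]
    linarith
  obtain ⟨H, hHdef⟩ : ∃ H : ℝ, H = T ^ (1 - 1 / 64 : ℝ) := ⟨_, rfl⟩
  have hH : 2 ≤ H := by
    have e : T ^ (7 / 16 : ℝ) ≤ T ^ (1 - 1 / 64 : ℝ) := Real.rpow_le_rpow_of_exponent_le hT1 (by norm_num)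
    rw [hHdef]
    linarith
  have hH0 : 0 < H := by linarith
  obtain ⟨R, hRdef⟩ : ∃ R : ℝ, R = T ^ (1 - 1 / 128 : ℝ) := ⟨_, rfl⟩
  have hR : 0 < R := by rw [hRdef]; positivity
  obtain ⟨ρ, hρdef⟩ : ∃ ρ : ℝ, ρ = T ^ (-(31 / 32) : ℝ) := ⟨_, rfl⟩
  have hρ0 : 0 < ρ := by rw [hρdef]; positivity
  have hρ1 : ρ ≤ 1 := by
    rw [hρdef]; exact Real.rpow_le_one_of_one_le_of_nonpos hT1 (by norm_num)
  obtain ⟨W, hWdef⟩ : ∃ W : ℝ, W = 1 / 2 * Real.log T := ⟨_, rfl⟩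
  have hWY : Real.log (N ^ q) + 1 ≤ W := by
    have e1 : Real.log (N ^ q) ≤ a * Real.log T := by
      calc Real.log (N ^ q) ≤ Real.log (T ^ a) := Real.log_le_log (by linarith) hNq
        _ = a * Real.log T := Real.log_rpow hT0 a
    rw [hWdef]
    rw [ha] at e1
    linarith
  obtain ⟨Z, hZdef⟩ : ∃ Z : ℝ, Z = N ^ q * Real.exp (W + 1) := ⟨_, rfl⟩
  have hexpW : Real.exp (W + 1) ≤ 3 * T ^ (1 / 2 : ℝ) := by
    rw [Real.exp_add]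
    have h2 : Real.exp W = T ^ (1 / 2 : ℝ) := by
      rw [Real.rpow_def_of_pos hT0, hWdef]
      congr 1
      ring
    have h3 : Real.exp 1 ≤ 3 := by have := Real.exp_one_lt_d9; linarith
    rw [h2]
    calc T ^ (1 / 2 : ℝ) * Real.exp 1 ≤ T ^ (1 / 2 : ℝ) * 3 := by gcongr
      _ = _ := by ring
  have hZ1 : Z ≤ 3 * T ^ (33 / 64 : ℝ) := by
    rw [hZdef]
    calc _ ≤ T ^ a * (3 * T ^ (1 / 2 : ℝ)) := by gcongr
      _ = 3 * (T ^ a * T ^ (1 / 2 : ℝ)) := by ring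
      _ = _ := by rw [ha, ← Real.rpow_add hT0]; norm_num
  have hZpos : 0 < Z := by rw [hZdef]; positivity
  have hZX : Z ≤ X₀ := by
    have h1 : T ^ (33 / 64 : ℝ) ≤ T := by
      calc T ^ (33 / 64 : ℝ) ≤ T ^ (1:ℝ) := Real.rpow_le_rpow_of_exponent_le hT1 (by norm_num)
        _ = T := Real.rpow_one T
    linarith
  have hZY : Z * N ^ q ≤ 3 * T ^ (17 / 32 : ℝ) := by
    calc Z * N ^ q ≤ (3 * T ^ (33 / 64 : ℝ)) * T ^ a := by gcongr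
      _ = 3 * (T ^ (33 / 64 : ℝ) * T ^ a) := by ring
      _ = _ := by rw [ha, ← Real.rpow_add hT0]; norm_num
  have hρ2 : 2 * ρ ≤ 1 / (Z * N ^ q) := by
    rw [le_div_iff₀ (by positivity)]
    calc 2 * ρ * (Z * N ^ q) ≤ 2 * ρ * (3 * T ^ (17 / 32 : ℝ)) := by gcongr
      _ = 6 * (T ^ (-(31 / 32) : ℝ) * T ^ (17 / 32 : ℝ)) := by rw [hρdef]; ring
      _ = 6 * T ^ (-(7 / 16) : ℝ) := by rw [← Real.rpow_add hT0]; norm_num
      _ ≤ T ^ (7 / 16 : ℝ) * T ^ (-(7 / 16) : ℝ) := by gcongr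
      _ = 1 := by rw [← Real.rpow_add hT0]; norm_num
  have hNX : N ^ q ≤ X₀ := by linarith
  have hΓ : ∀ m : ℤ, m ≠ 0 → |om α m| ≤ W → ∀ a b : ℕ, 1 ≤ a → 1 ≤ b → a.Coprime b → a.Coprime P →
      b.Coprime P → |om α m - Real.log a + Real.log b| < ρ →
      dv (q / 2) a * dv (q / 2) b * (Real.sqrt a)⁻¹ * (Real.sqrt b)⁻¹ ≤ Γ m := by
    intro m hm _ a b ha hb hab haP hbP hlt
    rw [← hκdef]
    rw [hρdef] at hlt
    exact h3 m hm a b ha hb hab haP hbP hlt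
  have hRT : R ≤ T / 4 := by
    rw [hRdef, le_div_iff₀ (by norm_num)]
    calc T ^ (1 - 1 / 128 : ℝ) * 4 ≤ T ^ (1 - 1 / 128 : ℝ) * T ^ (1 / 128 : ℝ) := by gcongr
      _ = T := by rw [← Real.rpow_add hT0]; norm_num
  obtain ⟨e₁, he₁def⟩ : ∃ e₁ : ℝ, e₁ = 1575 * (Real.sqrt 2 * T ^ (-(1 / 2) : ℝ)) := ⟨_, rfl⟩
  have he₁0 : 0 ≤ e₁ := by rw [he₁def]; positivity
  have happ : ∀ t, |t - τ| < R → ‖zl t - zX X₀ t‖ ≤ e₁ := by
    intro t ht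
    rw [abs_lt] at ht
    have ht1 : T / 2 ≤ t := by linarith [ht.1]
    have ht2 : t ≤ τ + T / 4 := by linarith [ht.2]
    have ht3 : τ - T / 4 ≤ t := by linarith [ht.1]
    have h := Pool.Agent.Y210.R9.zap0 t X₀ (by linarith) (by linarith) (by linarith)
    unfold zl
    rw [zX_eq]
    refine h.trans ?_
    rw [he₁def]
    have h5 : t ^ (-(1 / 2) : ℝ) ≤ (T / 2) ^ (-(1 / 2) : ℝ) :=
      Real.rpow_le_rpow_of_nonpos (by linarith) ht1 (by norm_num)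
    have h6 : (T / 2) ^ (-(1 / 2) : ℝ) = Real.sqrt 2 * T ^ (-(1 / 2) : ℝ) := by
      rw [Real.div_rpow hT0.le (by norm_num), Real.rpow_neg (by norm_num : (0:ℝ) ≤ 2), div_inv_eq_mul,
        Real.sqrt_eq_rpow, mul_comm]
    rw [h6] at h5
    gcongr
  obtain ⟨Xf, hXf⟩ : ∃ Xf : ℝ, Xf = N ^ (q - 2) * (P * (X₀:ℝ)) := ⟨_, rfl⟩
  have hXf1 : 1 ≤ Xf := by
    rw [hXf]
    have h1 : 1 ≤ N ^ (q - 2) := one_le_pow₀ hN1
    have h2 : 1 ≤ (P:ℝ) * X₀ := one_le_mul_of_one_le_of_one_le hPr hX1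
    exact one_le_mul_of_one_le_of_one_le h1 h2
  have hXfT : Xf ≤ 10 * P * T ^ (65 / 64 : ℝ) := by
    have h1 : N ^ (q - 2) ≤ T ^ a := by
      apply hpowN
      push_cast [Nat.cast_sub hq]
      linarith
    rw [hXf]
    calc N ^ (q - 2) * (P * (X₀:ℝ)) ≤ T ^ a * (P * (10 * T)) := by gcongr
      _ = 10 * P * (T ^ a * T ^ (1:ℝ)) := by rw [Real.rpow_one]; ring
      _ = _ := by rw [ha, ← Real.rpow_add hT0]; norm_num
  obtain ⟨M, hMdef⟩ : ∃ M : ℕ, M = ⌈α * (Real.log Xf + 1) / (2 * Real.pi)⌉₊ := ⟨_, rfl⟩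
  have hMle : Real.log (N ^ (q - 2) * (P * (X₀:ℝ))) + 1 ≤ 2 * Real.pi * (M + 1) / α := by
    rw [← hXf]
    have h1 : α * (Real.log Xf + 1) / (2 * Real.pi) ≤ M := by rw [hMdef]; exact Nat.le_ceil _
    have hpi := Real.pi_pos
    rw [div_le_iff₀ (by positivity)] at h1
    rw [le_div_iff₀ hα]
    linarith
  have hfar : (2 * (M:ℝ) + 1) * bd K (N ^ q) W ρ Xf ≤ C3 * T ^ (-(1 / 16) : ℝ) := by
    rw [hMdef, hC3]
    exact far_error hα hK hPr hT1 (by positivity) (by rw [← ha]; exact hNq) hWdef hρdef hXf1 hXfT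
  have hcore := core q hq J (by rw [← hκdef]; exact hJ) α t₀ hα P hP N X₀ Z ρ τ H R ε e₁ μ W K hN1
    hNX hZX hρ0.le hρ1 hH hR.le he₁0 hμpos hWY (le_of_eq hZdef.symm) hρ2 hK (by rw [← hκdef]; exact hK1)
    M hMle Γ hΓ0 hΓ (hΓsum M) happ
  rw [← hκdef, ← hXf] at hcore
  -- the error terms
  have hgq : gq (H / 2) ρ = Real.exp (-(1 / 16 * T ^ (1 / 32 : ℝ))) := by
    unfold gq
    congr 1
    rw [hHdef, hρdef, div_pow, ← Real.rpow_natCast (T ^ (1 - 1 / 64 : ℝ)), ← Real.rpow_natCast (T ^ (-(31 / 32) : ℝ)),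
      ← Real.rpow_mul hT0.le, ← Real.rpow_mul hT0.le]
    have e1 : T ^ ((1 - 1 / 64 : ℝ) * ((2:ℕ):ℝ)) * T ^ ((-(31 / 32) : ℝ) * ((2:ℕ):ℝ)) = T ^ (1 / 32 : ℝ) := by
      rw [← Real.rpow_add hT0]
      congr 1
      push_cast
      norm_num
    rw [← e1]
    ring
  have hRH : Real.exp (-(R ^ 2 / (2 * H ^ 2))) = Real.exp (-(1 / 2 * T ^ (1 / 64 : ℝ))) := by
    congr 1
    rw [hHdef, hRdef, ← Real.rpow_natCast, ← Real.rpow_natCast, ← Real.rpow_mul hT0.le,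
      ← Real.rpow_mul hT0.le]
    have e1 : T ^ ((1 - 1 / 128 : ℝ) * ((2:ℕ):ℝ)) = T ^ ((1 - 1 / 64 : ℝ) * ((2:ℕ):ℝ)) * T ^ (1 / 64 : ℝ) := by
      rw [← Real.rpow_add hT0]
      congr 1
      push_cast
      norm_num
    rw [e1]
    have : (0:ℝ) < T ^ ((1 - 1 / 64 : ℝ) * ((2:ℕ):ℝ)) := by positivity
    field_simp
  have hbig : Xf ^ (q + 3) * N ^ (J + 1) ≤
      (10 * P) ^ (q + 3) * T ^ ((q - 1) * (q + 3) + (J + 1)) := by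
    have e1 : Xf ≤ (10 * P) * T ^ (q - 1) := by
      rw [hXf]
      calc N ^ (q - 2) * (P * (X₀:ℝ)) ≤ T ^ (q - 2) * (P * (10 * T)) := by gcongr
        _ = (10 * P) * (T ^ (q - 2) * T) := by ring
        _ = (10 * P) * T ^ (q - 1) := by rw [← pow_succ, show q - 2 + 1 = q - 1 by omega]
    calc _ ≤ ((10 * P) * T ^ (q - 1)) ^ (q + 3) * T ^ (J + 1) := by gcongr
      _ = _ := by rw [mul_pow, ← pow_mul, pow_add]; ring
  have hE1 : (CA α + 1) * (Xf ^ (q + 3) * N ^ (J + 1) * gq (H / 2) ρ) ≤ 1 := by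
    refine le_trans ?_ h4
    rw [hgq]
    calc _ ≤ (CA α + 1) * (((10 * P) ^ (q + 3) * T ^ ((q - 1) * (q + 3) + (J + 1))) *
          Real.exp (-(1 / 16 * T ^ (1 / 32 : ℝ)))) := by gcongr
      _ = _ := by ring
  have hE2 : Xf ^ (q + 3) * N ^ (J + 1) * (2 * Real.exp (-(R ^ 2 / (2 * H ^ 2)))) * CA α ≤ 1 := by
    refine le_trans ?_ h5
    rw [hRH]
    calc _ ≤ ((10 * P) ^ (q + 3) * T ^ ((q - 1) * (q + 3) + (J + 1))) *
          (2 * Real.exp (-(1 / 2 * T ^ (1 / 64 : ℝ)))) * CA α := by gcongr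
      _ = _ := by ring
  have hE6 : μ * (2 * ((CA α + 1) * ((N ^ q) ^ (2 * (q + J + 1)) * gq (H / 2) ρ))) ≤ 1 := by
    refine le_trans ?_ h6
    rw [hgq]
    calc _ ≤ μ * (2 * ((CA α + 1) * ((T ^ q) ^ (2 * (q + J + 1)) *
          Real.exp (-(1 / 16 * T ^ (1 / 32 : ℝ)))))) := by gcongr
      _ = _ := by rw [← pow_mul]; ring
  have hE3 : (2 * (M:ℝ) + 1) * bd K (N ^ q) W ρ Xf ≤ 1 := hfar.trans h7
  have hE3' : μ * (2 * ((2 * (M:ℝ) + 1) * bd K (N ^ q) W ρ Xf)) ≤ 1 := by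
    calc μ * (2 * ((2 * (M:ℝ) + 1) * bd K (N ^ q) W ρ Xf)) ≤ μ * (2 * (C3 * T ^ (-(1 / 16) : ℝ))) := by gcongr
      _ = 2 * μ * C3 * T ^ (-(1 / 16) : ℝ) := by ring
      _ ≤ 1 := h7'
  have hE4 : e₁ * (P * N ^ (q - 2) * N ^ (J + 1)) * CA α ≤ 1 := by
    refine le_trans ?_ h8
    have g3 : (P:ℝ) * N ^ (q - 2) * N ^ (J + 1) ≤ P * T ^ a := by
      rw [mul_assoc]; gcongr
    have k5 : T ^ (-(1 / 2) : ℝ) * T ^ a = T ^ (-(1 / 2 - 1 / 64) : ℝ) := by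
      rw [← Real.rpow_add hT0, ha]
      congr 1
      norm_num
    calc e₁ * (P * N ^ (q - 2) * N ^ (J + 1)) * CA α ≤ e₁ * (P * T ^ a) * CA α := by gcongr
      _ = (1575 * Real.sqrt 2) * P * CA α * (T ^ (-(1 / 2) : ℝ) * T ^ a) := by rw [he₁def]; ring
      _ = _ := by rw [k5]
  -- conclusion
  obtain ⟨S, hSdef⟩ : ∃ S : ℝ, S = SP κ P ⌊N⌋₊ := ⟨_, rfl⟩
  obtain ⟨U, hUdef⟩ : ∃ U : ℝ, U = ∑ v ∈ Icc 1 ⌊N ^ q⌋₊, dv κ v ^ 2 / (v:ℝ) := ⟨_, rfl⟩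
  rw [← hNdef] at h1 h2
  rw [← hSdef] at h1 hcore
  rw [← hUdef] at h2 hcore
  have hU0 : 0 ≤ U := by rw [hUdef]; exact sum_nonneg fun v _ => by positivity
  obtain ⟨Lg, hLg⟩ : ∃ Lg : ℝ, Lg = (ν * Real.log T) ^ (κ ^ 2) := ⟨_, rfl⟩
  rw [← hLg] at h1 h2
  have hLg0 : 0 ≤ Lg := by rw [hLg]; positivity
  have hcU : c₂ * U ≤ S := by
    calc c₂ * U ≤ c₂ * (CU * ((q:ℝ) ^ (κ ^ 2) * Lg)) := by gcongr
      _ = cS * Lg := by rw [hc₂]; field_simp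
      _ ≤ S := h1
  have hLg2 : Lg = ν ^ (κ ^ 2) * Real.log T ^ (κ ^ 2) := by
    rw [hLg, Real.mul_rpow hνpos.le hlog.le]
  have hSbig : 24 ≤ S := by
    calc (24:ℝ) ≤ cS * ν ^ (κ ^ 2) * Real.log T ^ (κ ^ 2) := h12
      _ = cS * Lg := by rw [hLg2]; ring
      _ ≤ S := h1
  have hεU : ε * U ≤ S / 4 := by
    rw [hεdef]
    calc c₂ / 4 * U = (c₂ * U) / 4 := by ring
      _ ≤ S / 4 := by gcongr
  have hμU : μ * (2 * (1 + ε) * U) ≤ S / 4 := by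
    rw [hμdef]
    calc c₂ / (8 * (1 + ε)) * (2 * (1 + ε) * U) = (c₂ * U) / 4 := by
          field_simp
          ring
      _ ≤ S / 4 := by gcongr
  rw [← hRdef, ← hHdef]
  obtain ⟨Jn, hJn⟩ : ∃ Jn : ℝ, Jn = DR α t₀ τ H (fun t => if |t - τ| < R then ‖zl t‖ ^ q else 0) := ⟨_, rfl⟩
  rw [← hJn] at hcore
  rw [← hJn, ← hκdef]
  have hden : 0 < (μ⁻¹) ^ (q - 1) * (P:ℝ) ^ q := by positivity
  have hfin : S / 4 ≤ (μ⁻¹) ^ (q - 1) * P ^ q * Jn := by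
    have e1 : μ * (2 * (1 + ε) * U + 2 * ((2 * (M:ℝ) + 1) * bd K (N ^ q) W ρ Xf) +
        2 * ((CA α + 1) * ((N ^ q) ^ (2 * (q + J + 1)) * gq (H / 2) ρ))) =
      μ * (2 * (1 + ε) * U) + μ * (2 * ((2 * (M:ℝ) + 1) * bd K (N ^ q) W ρ Xf)) +
        μ * (2 * ((CA α + 1) * ((N ^ q) ^ (2 * (q + J + 1)) * gq (H / 2) ρ))) := by ring
    rw [e1] at hcore
    exact fin_arith' hcore hεU hE3 hE1 hE2 hE4 hE3' hE6 hμU hSbig
  rw [div_mul_eq_mul_div, div_le_iff₀ hden]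
  calc (1 / 4) * cS * ν ^ (κ ^ 2) * Real.log T ^ (κ ^ 2) = (cS * Lg) / 4 := by
        rw [hLg2]; ring
    _ ≤ S / 4 := by gcongr
    _ ≤ (μ⁻¹) ^ (q - 1) * P ^ q * Jn := hfin
    _ = _ := by ring

end

end Pool.Agent.U615.EP
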