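import Pool.Agent.R311.BS.M
import Pool.Agent.R311.BS.K

set_option autoImplicit false

/-! Poisson summation for Gaussian weights on an arithmetic progression. -/

namespace Pool.Agent.U615.EP

open Finset MeasureTheory Filter Topology
open Pool.Agent.H306R2 Pool.Agent.R311.BS

noncomputable section

/-- the frequencies dual to the progression of difference `α` -/
def om (α : ℝ) (m : ℤ) : ℝ := 2 * Real.pi * m / α

lemma om_zero (α : ℝ) : om α 0 = 0 := by unfold om; simp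

lemma summ_gauss (c v : ℝ) (hc : 0 < c) : Summable fun n : ℤ => Real.exp (-(c * (n + v) ^ 2)) := by
  have h1 : Summable fun n : ℤ => (Real.exp (c * v ^ 2) * (1 + 2 / c)) * lam n :=
    lam_summable.mul_left _
  refine Summable.of_nonneg_of_le (fun n => (Real.exp_pos _).le) (fun n => ?_) h1
  have h2 : (n:ℝ) ^ 2 / 2 - v ^ 2 ≤ ((n:ℝ) + v) ^ 2 := by nlinarith [sq_nonneg ((n:ℝ) + 2 * v)]
  have h3 : Real.exp (-(c * ((n:ℝ) + v) ^ 2)) ≤ Real.exp (c * v ^ 2) * Real.exp (-(c / 2 * (n:ℝ) ^ 2)) := by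
    rw [← Real.exp_add]
    apply Real.exp_le_exp.mpr
    have := mul_le_mul_of_nonneg_left h2 hc.le
    nlinarith
  refine h3.trans ?_
  rw [mul_assoc]
  refine mul_le_mul_of_nonneg_left ?_ (Real.exp_pos _).le
  unfold lam
  split_ifs with h
  · subst h
    have : 0 < 2 / c := by positivity
    simp
    exact this.le
  · have hn : (n:ℝ) ≠ 0 := by exact_mod_cast h
    have hn2 : 0 < (n:ℝ) ^ 2 := by positivity
    set y := c / 2 * (n:ℝ) ^ 2 with hy
    have hy0 : 0 < y := by positivity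
    have h4 : Real.exp (-y) ≤ 1 / y := by
      rw [Real.exp_neg, ← one_div]
      exact one_div_le_one_div_of_le hy0 (by linarith [Real.add_one_le_exp y])
    have h5 : 1 / y = 2 / c * (1 / (n:ℝ) ^ 2) := by rw [hy]; field_simp
    rw [h5] at h4
    have h6 : 0 ≤ 1 / (n:ℝ) ^ 2 := by positivity
    nlinarith

lemma gw_summable (α τ H t₀ : ℝ) (hα : 0 < α) (hH : 0 < H) :
    Summable fun n : ℤ => gw τ H (t₀ + α * n) := by
  have h := summ_gauss (α ^ 2 / H ^ 2) ((t₀ - τ) / α) (by positivity)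
  have h2 := h.mul_left (1 / (H * Real.sqrt Real.pi))
  refine h2.congr fun n => ?_
  unfold gw
  rw [div_mul_eq_mul_div, one_mul]
  congr 2
  field_simp
  ring

lemma gq_summable (α H x : ℝ) (hα : 0 < α) (hH : 0 < H) :
    Summable fun m : ℤ => gq H (x + om α m) := by
  have hpi := Real.pi_pos
  have h := summ_gauss (H ^ 2 * (2 * Real.pi / α) ^ 2 / 4) (x * α / (2 * Real.pi)) (by positivity)
  refine h.congr fun n => ?_
  unfold gq om
  congr 1
  field_simp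
  ring

/-- Poisson summation -/
theorem poisson (α τ H t₀ x : ℝ) (hα : 0 < α) (hH : 0 < H) :
    (α : ℂ) * ∑' n : ℤ, ex x (t₀ + α * n) * (gw τ H (t₀ + α * n) : ℂ) =
      ∑' m : ℤ, ex (om α m) (-t₀) * (ex (x + om α m) τ * (gq H (x + om α m) : ℝ)) := by
  have hpi := Real.pi_pos
  have hsp : 0 < Real.sqrt Real.pi := Real.sqrt_pos.mpr hpi
  have hspi : Real.sqrt Real.pi ^ 2 = Real.pi := Real.sq_sqrt hpi.le
  obtain ⟨a, ha⟩ : ∃ a : ℝ, a = α ^ 2 / (Real.pi * H ^ 2) := ⟨_, rfl⟩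
  have ha0 : 0 < a := by rw [ha]; positivity
  obtain ⟨b, hb⟩ : ∃ b : ℂ, b = ((-2 * α * (t₀ - τ) / H ^ 2 : ℝ) + Complex.I * (x * α : ℝ)) / (2 * Real.pi) := ⟨_, rfl⟩
  have hP := Complex.tsum_exp_neg_quadratic (a := (a : ℂ)) (by simpa using ha0) b
  have hpiC : (Real.pi : ℂ) ≠ 0 := by exact_mod_cast hpi.ne'
  have hHC : (H : ℂ) ≠ 0 := by exact_mod_cast hH.ne'
  have hαC : (α : ℂ) ≠ 0 := by exact_mod_cast hα.ne'
  have haC : (a : ℂ) = (α:ℂ) ^ 2 / (Real.pi * (H:ℂ) ^ 2) := by rw [ha]; push_cast; rfl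
  obtain ⟨K, hK⟩ : ∃ K : ℂ, K = Complex.exp (((-((t₀ - τ) ^ 2 / H ^ 2) : ℝ) : ℂ) + ((x * t₀ : ℝ) : ℂ) * Complex.I) := ⟨_, rfl⟩
  have e1 : ∀ n : ℤ, ex x (t₀ + α * n) * (gw τ H (t₀ + α * n) : ℂ) =
      (K / ((H * Real.sqrt Real.pi : ℝ) : ℂ)) * Complex.exp (-Real.pi * a * (n:ℂ) ^ 2 + 2 * Real.pi * b * n) := by
    intro n
    unfold ex gw
    rw [Complex.ofReal_div, Complex.ofReal_exp, mul_div_assoc', ← Complex.exp_add, div_mul_eq_mul_div, hK,
      ← Complex.exp_add]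
    congr 2
    rw [hb, haC]
    push_cast
    field_simp
    ring
  simp only [e1]
  rw [tsum_mul_left, hP]
  have e2 : (a : ℂ) ^ (1 / 2 : ℂ) = ((α / (H * Real.sqrt Real.pi) : ℝ) : ℂ) := by
    have : (a : ℂ) ^ (1 / 2 : ℂ) = ((a ^ (1 / 2 : ℝ) : ℝ) : ℂ) := by
      rw [Complex.ofReal_cpow ha0.le]
      push_cast
      rfl
    rw [this, ← Real.sqrt_eq_rpow]
    congr 1
    have : a = (α / (H * Real.sqrt Real.pi)) ^ 2 := by
      rw [ha, div_pow, mul_pow, hspi, mul_comm Real.pi]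
    rw [this, Real.sqrt_sq (by positivity)]
  rw [e2]
  have e3 : (α : ℂ) * (K / ((H * Real.sqrt Real.pi : ℝ) : ℂ) * (1 / ((α / (H * Real.sqrt Real.pi) : ℝ) : ℂ) *
      ∑' n : ℤ, Complex.exp (-Real.pi / a * ((n:ℂ) + Complex.I * b) ^ 2))) =
      K * ∑' n : ℤ, Complex.exp (-Real.pi / a * ((n:ℂ) + Complex.I * b) ^ 2) := by
    have hspC : (Real.sqrt Real.pi : ℂ) ≠ 0 := by exact_mod_cast hsp.ne'
    push_cast
    field_simp
  rw [e3, ← tsum_mul_left, ← (Equiv.neg ℤ).tsum_eq]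
  refine tsum_congr fun m => ?_
  rw [hK, ← Complex.exp_add]
  unfold ex gq om
  rw [Complex.ofReal_exp, ← Complex.exp_add, ← Complex.exp_add]
  congr 1
  rw [hb, haC]
  simp only [Equiv.neg_apply]
  have hI : Complex.I ^ 2 = -1 := Complex.I_sq
  have hI3 : Complex.I ^ 3 = -Complex.I := by rw [pow_succ, hI]; ring
  have hI4 : Complex.I ^ 4 = 1 := Complex.I_pow_four
  push_cast
  field_simp
  ring_nf
  simp only [hI, hI3, hI4]
  ring

end

end Pool.Agent.U615.EP
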