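import Pool.Agent.U615.EP.P

set_option autoImplicit false

/-! Consequences of the Poisson summation formula. -/

namespace Pool.Agent.U615.EP

open Finset MeasureTheory Filter Topology
open Pool.Agent.H306R2 Pool.Agent.R311.BS

noncomputable section

/-- the constant of the progression -/
def CA (α : ℝ) : ℝ := ∑' m : ℤ, gq 1 (om α m)

lemma gq_zero (H : ℝ) : gq H 0 = 1 := by unfold gq; simp

lemma CA_ge_one (α : ℝ) (hα : 0 < α) : 1 ≤ CA α := by
  have h := gq_summable α 1 0 hα one_pos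
  simp only [zero_add] at h
  have h2 := h.sum_le_tsum {0} fun m _ => gq_nonneg _ _
  simpa [om_zero, gq_zero, CA] using h2

/-- Poisson summation at the frequency zero -/
lemma mass_eq (α H : ℝ) (hα : 0 < α) (hH : 0 < H) :
    α * ∑' n : ℤ, gw 0 H (α * n) = ∑' m : ℤ, gq H (om α m) := by
  have h := poisson α 0 H 0 0 hα hH
  have e1 : ∀ n : ℤ, ex 0 (0 + α * n) * (gw 0 H (0 + α * n) : ℂ) = ((gw 0 H (α * n) : ℝ) : ℂ) := by
    intro n
    unfold ex
    simp
  have e2 : ∀ m : ℤ, ex (om α m) (-0) * (ex (0 + om α m) 0 * (gq H (0 + om α m) : ℝ)) =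
      ((gq H (om α m) : ℝ) : ℂ) := by
    intro m
    unfold ex
    simp
  simp only [e1, e2] at h
  rw [← Complex.ofReal_tsum, ← Complex.ofReal_tsum] at h
  exact_mod_cast h

lemma gq_mono {H H' : ℝ} (hH : 0 < H) (h : H ≤ H') (x : ℝ) : gq H' x ≤ gq H x := by
  unfold gq
  apply Real.exp_le_exp.mpr
  have : H ^ 2 * x ^ 2 ≤ H' ^ 2 * x ^ 2 := by gcongr
  linarith

lemma sum_gq_om (α H : ℝ) (hα : 0 < α) (hH : 1 ≤ H) : ∑' m : ℤ, gq H (om α m) ≤ CA α := by
  unfold CA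
  have h1 := gq_summable α H 0 hα (by linarith)
  have h2 := gq_summable α 1 0 hα one_pos
  simp only [zero_add] at h1 h2
  exact h1.tsum_le_tsum (fun m => gq_mono one_pos hH _) h2

/-- the sum over all shifted frequencies -/
lemma sum_gq_shift (α H x : ℝ) (hα : 0 < α) (hH : 1 ≤ H) : ∑' m : ℤ, gq H (x + om α m) ≤ CA α := by
  have hH0 : 0 < H := by linarith
  have h := poisson α 0 H 0 x hα hH0
  have e2 : ∀ m : ℤ, ex (om α m) (-0) * (ex (x + om α m) 0 * (gq H (x + om α m) : ℝ)) =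
      ((gq H (x + om α m) : ℝ) : ℂ) := by
    intro m
    unfold ex
    simp
  simp only [e2] at h
  rw [← Complex.ofReal_tsum] at h
  have hs := gw_summable α 0 H 0 hα hH0
  have h1 : ∑' m : ℤ, gq H (x + om α m) ≤ α * ∑' n : ℤ, gw 0 H (0 + α * n) := by
    have h0 : 0 ≤ ∑' m : ℤ, gq H (x + om α m) := tsum_nonneg fun m => gq_nonneg _ _
    have h2 : ∑' m : ℤ, gq H (x + om α m) = ‖((∑' m : ℤ, gq H (x + om α m) : ℝ) : ℂ)‖ := by
      rw [Complex.norm_real, Real.norm_of_nonneg h0]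
    rw [h2, ← h, norm_mul, Complex.norm_real, Real.norm_of_nonneg hα.le]
    refine mul_le_mul_of_nonneg_left ?_ hα.le
    have e3 : ∀ n : ℤ, ‖ex x (0 + α * n) * (gw 0 H (0 + α * n) : ℂ)‖ = gw 0 H (0 + α * n) := by
      intro n
      rw [norm_mul, ex_norm, one_mul, Complex.norm_real, Real.norm_of_nonneg (gw_nonneg _ _ _ hH0)]
    have hn : Summable fun n : ℤ => ‖ex x (0 + α * n) * (gw 0 H (0 + α * n) : ℂ)‖ := by
      simp only [e3]; exact hs
    refine (norm_tsum_le_tsum_norm hn).trans ?_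
    simp only [e3]
    exact le_refl _
  refine h1.trans ?_
  simp only [zero_add]
  rw [mass_eq α H hα hH0]
  exact sum_gq_om α H hα hH

/-- total mass of the weights -/
lemma mass_le (α τ H t₀ : ℝ) (hα : 0 < α) (hH : 1 ≤ H) : α * ∑' n : ℤ, gw τ H (t₀ + α * n) ≤ CA α := by
  have hH0 : 0 < H := by linarith
  have h := poisson α τ H t₀ 0 hα hH0
  have e1 : ∀ n : ℤ, ex 0 (t₀ + α * n) * (gw τ H (t₀ + α * n) : ℂ) = ((gw τ H (t₀ + α * n) : ℝ) : ℂ) := by
    intro n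
    unfold ex
    simp
  simp only [e1] at h
  rw [← Complex.ofReal_tsum, ← Complex.ofReal_mul] at h
  have h0 : 0 ≤ α * ∑' n : ℤ, gw τ H (t₀ + α * n) :=
    mul_nonneg hα.le (tsum_nonneg fun m => gw_nonneg _ _ _ hH0)
  have h2 : α * ∑' n : ℤ, gw τ H (t₀ + α * n) = ‖((α * ∑' n : ℤ, gw τ H (t₀ + α * n) : ℝ) : ℂ)‖ := by
    rw [Complex.norm_real, Real.norm_of_nonneg h0]
  rw [h2, h]
  have e3 : ∀ m : ℤ, ‖ex (om α m) (-t₀) * (ex (0 + om α m) τ * (gq H (0 + om α m) : ℝ))‖ = gq H (0 + om α m) := by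
    intro m
    rw [norm_mul, norm_mul, ex_norm, ex_norm, one_mul, one_mul, Complex.norm_real,
      Real.norm_of_nonneg (gq_nonneg _ _)]
  have hs := gq_summable α H 0 hα hH0
  have hn : Summable fun m : ℤ => ‖ex (om α m) (-t₀) * (ex (0 + om α m) τ * (gq H (0 + om α m) : ℝ))‖ := by
    simp only [e3]; exact hs
  refine (norm_tsum_le_tsum_norm hn).trans ?_
  simp only [e3]
  exact sum_gq_shift α H 0 hα hH

/-- outside the window the weight is dominated by a wider one -/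
lemma gw_out (τ H R t : ℝ) (hH : 0 < H) (hR : 0 ≤ R) (h : R ≤ |t - τ|) :
    gw τ H t ≤ 2 * Real.exp (-(R ^ 2 / (2 * H ^ 2))) * gw τ (2 * H) t := by
  have hsp : 0 < Real.sqrt Real.pi := Real.sqrt_pos.mpr Real.pi_pos
  have h2 : R ^ 2 ≤ (t - τ) ^ 2 := by
    rw [← sq_abs (t - τ)]
    exact pow_le_pow_left₀ hR h 2
  have h3 : Real.exp (-((t - τ) ^ 2 / H ^ 2)) ≤
      Real.exp (-(R ^ 2 / (2 * H ^ 2))) * Real.exp (-((t - τ) ^ 2 / (2 * H) ^ 2)) := by
    rw [← Real.exp_add]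
    apply Real.exp_le_exp.mpr
    have e1 : -(R ^ 2 / (2 * H ^ 2)) + -((t - τ) ^ 2 / (2 * H) ^ 2) - -((t - τ) ^ 2 / H ^ 2) =
      ((3 / 4) * (t - τ) ^ 2 - (1 / 2) * R ^ 2) / H ^ 2 := by
      field_simp
      ring
    have e2 : 0 ≤ ((3 / 4) * (t - τ) ^ 2 - (1 / 2) * R ^ 2) / H ^ 2 := by
      apply div_nonneg _ (by positivity)
      nlinarith [sq_nonneg R]
    linarith
  unfold gw
  have e4 : 2 * Real.exp (-(R ^ 2 / (2 * H ^ 2))) * (Real.exp (-((t - τ) ^ 2 / (2 * H) ^ 2)) / (2 * H * Real.sqrt Real.pi)) =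
      (Real.exp (-(R ^ 2 / (2 * H ^ 2))) * Real.exp (-((t - τ) ^ 2 / (2 * H) ^ 2))) / (H * Real.sqrt Real.pi) := by
    field_simp
  rw [e4]
  gcongr

/-- the frequencies far from zero are small in the mean -/
lemma gq_far_split (H ρ q : ℝ) (hρ : 0 ≤ ρ) (h : ρ ≤ |q|) : gq H q ≤ gq (H / 2) ρ * gq (H / 2) q := by
  unfold gq
  rw [← Real.exp_add]
  apply Real.exp_le_exp.mpr
  have h2 : ρ ^ 2 ≤ q ^ 2 := by
    rw [← sq_abs q]
    exact pow_le_pow_left₀ hρ h 2
  have h3 : H ^ 2 * ρ ^ 2 ≤ H ^ 2 * q ^ 2 := by gcongr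
  have h4 : 0 ≤ H ^ 2 * q ^ 2 := by positivity
  nlinarith

/-- one frequency on the progression -/
theorem one_freq (α τ H t₀ x ρ : ℝ) (hα : 0 < α) (hH : 2 ≤ H) (hρ : 0 ≤ ρ) (M : Finset ℤ)
    (hM : ∀ m : ℤ, m ∉ M → ρ ≤ |x + om α m|) :
    ‖(α : ℂ) * ∑' n : ℤ, ex x (t₀ + α * n) * (gw τ H (t₀ + α * n) : ℂ) - ex x τ * (gq H x : ℝ)‖ ≤
      (∑ m ∈ M.erase 0, if |x + om α m| < ρ then (1:ℝ) else 0) + CA α * gq (H / 2) ρ := by
  have hH0 : 0 < H := by linarith
  rw [poisson α τ H t₀ x hα hH0]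
  set F : ℤ → ℂ := fun m => ex (om α m) (-t₀) * (ex (x + om α m) τ * (gq H (x + om α m) : ℝ)) with hF
  have hFn : ∀ m, ‖F m‖ = gq H (x + om α m) := by
    intro m
    rw [hF]
    simp only
    rw [norm_mul, norm_mul, ex_norm, ex_norm, one_mul, one_mul, Complex.norm_real,
      Real.norm_of_nonneg (gq_nonneg _ _)]
  have hs := gq_summable α H x hα hH0
  have hFs : Summable F := Summable.of_norm (by simp only [hFn]; exact hs)
  have hF0 : F 0 = ex x τ * (gq H x : ℝ) := by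
    rw [hF]
    simp only [om_zero, add_zero]
    have : ex 0 (-t₀) = 1 := by unfold ex; simp
    rw [this, one_mul]
  rw [hFs.tsum_eq_add_tsum_ite 0, hF0, add_sub_cancel_left]
  set N : ℤ → ℝ := fun m => if m ∈ M.erase 0 then (if |x + om α m| < ρ then (1:ℝ) else 0) else 0 with hN
  have hNs : Summable N := summable_of_ne_finset_zero (s := M.erase 0) fun m hm => by
    rw [hN]; simp only; rw [if_neg hm]
  have hs2 := (gq_summable α (H / 2) x hα (by linarith)).mul_left (gq (H / 2) ρ)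
  have hle : ∀ m, ‖(if m = 0 then (0:ℂ) else F m)‖ ≤ N m + gq (H / 2) ρ * gq (H / 2) (x + om α m) := by
    intro m
    have p1 : 0 ≤ gq (H / 2) ρ * gq (H / 2) (x + om α m) := mul_nonneg (gq_nonneg _ _) (gq_nonneg _ _)
    have p2 : 0 ≤ N m := by rw [hN]; simp only; split_ifs <;> norm_num
    by_cases h0 : m = 0
    · rw [if_pos h0, norm_zero]; positivity
    rw [if_neg h0, hFn]
    by_cases h1 : |x + om α m| < ρ
    · have hm : m ∈ M := by
        by_contra h2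
        exact absurd (hM m h2) (not_le.mpr h1)
      have : N m = 1 := by
        rw [hN]; simp only
        rw [if_pos (mem_erase.mpr ⟨h0, hm⟩), if_pos h1]
      rw [this]
      have := gq_le_one H (x + om α m)
      linarith
    · have := gq_far_split H ρ (x + om α m) hρ (not_lt.mp h1)
      linarith
  have hs3 : Summable fun m => ‖(if m = 0 then (0:ℂ) else F m)‖ :=
    Summable.of_nonneg_of_le (fun m => norm_nonneg _) hle (hNs.add hs2)
  refine (norm_tsum_le_tsum_norm hs3).trans ?_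
  refine (hs3.tsum_le_tsum hle (hNs.add hs2)).trans ?_
  rw [hNs.tsum_add hs2, tsum_mul_left]
  have e1 : ∑' m, N m = ∑ m ∈ M.erase 0, if |x + om α m| < ρ then (1:ℝ) else 0 := by
    rw [tsum_eq_sum (s := M.erase 0) fun m hm => by rw [hN]; simp only; rw [if_neg hm]]
    refine sum_congr rfl fun m hm => ?_
    rw [hN]; simp only; rw [if_pos hm]
  rw [e1, mul_comm (CA α)]
  have h5 := sum_gq_shift α (H / 2) x hα (by linarith)
  have h6 := gq_nonneg (H / 2) ρ
  have := mul_le_mul_of_nonneg_left h5 h6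
  linarith

end

end Pool.Agent.U615.EP
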